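import Pool.Agent.N165.CU.Stm

set_option autoImplicit false
set_option linter.unusedSectionVars false

/-! # The functional equation of `t f(x) + ∑ u_k v_k` -/

namespace Pool.Agent.N165.CU

open MvPolynomial Pool.Agent.W427.SMC Pool.Agent.H628R4.TP

section good

variable {τ : Type}

/-- families of operators which are polynomials in `s` -/
def Good (L : ℕ → Module.End ℂ (MvPolynomial τ ℂ)) : Prop :=
  ∃ P : ℕ →₀ weylS τ, ∀ s : ℕ, L s = P.sum fun m Q => ((s : ℂ) ^ m) •
    (Q : Module.End ℂ (MvPolynomial τ ℂ))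

lemma good_const {Q : Module.End ℂ (MvPolynomial τ ℂ)} (hQ : Q ∈ weylS τ) :
    Good fun _ => Q := by
  refine ⟨Finsupp.single 0 ⟨Q, hQ⟩, fun s => ?_⟩
  rw [Finsupp.sum_single_index (by simp)]
  simp

lemma good_add {L M : ℕ → Module.End ℂ (MvPolynomial τ ℂ)} (hL : Good L) (hM : Good M) :
    Good fun s => L s + M s := by
  obtain ⟨P, hP⟩ := hL
  obtain ⟨P', hP'⟩ := hM
  refine ⟨P + P', fun s => ?_⟩
  rw [Finsupp.sum_add_index' (by simp) (by intro m a b; simp [smul_add]), ← hP, ← hP']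

lemma good_smul (c : ℂ) {L : ℕ → Module.End ℂ (MvPolynomial τ ℂ)} (hL : Good L) :
    Good fun s => c • L s := by
  obtain ⟨P, hP⟩ := hL
  refine ⟨P.mapRange (fun Q => c • Q) (smul_zero c), fun s => ?_⟩
  rw [Finsupp.sum_mapRange_index (by simp)]
  show c • L s = _
  rw [hP s, Finsupp.smul_sum]
  refine Finsupp.sum_congr fun m _ => ?_
  rw [Subalgebra.coe_smul, smul_comm]

lemma good_s {L : ℕ → Module.End ℂ (MvPolynomial τ ℂ)} (hL : Good L) :
    Good fun s => (s : ℂ) • L s := by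
  obtain ⟨P, hP⟩ := hL
  refine ⟨P.mapDomain (· + 1), fun s => ?_⟩
  rw [Finsupp.sum_mapDomain_index (by simp) (by intro m a b; simp [smul_add])]
  show (s : ℂ) • L s = _
  rw [hP s, Finsupp.smul_sum]
  refine Finsupp.sum_congr fun m _ => ?_
  rw [smul_smul, pow_succ']

lemma good_zero : Good fun _ => (0 : Module.End ℂ (MvPolynomial τ ℂ)) :=
  good_const (Subalgebra.zero_mem _)

lemma good_sum {ι : Type} (S : Finset ι) (L : ι → ℕ → Module.End ℂ (MvPolynomial τ ℂ))
    (hL : ∀ i ∈ S, Good (L i)) : Good fun s => ∑ i ∈ S, L i s := by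
  classical
  induction S using Finset.induction_on with
  | empty => simpa using good_zero
  | insert i S hi ih =>
    simp only [Finset.sum_insert hi]
    exact good_add (hL i (Finset.mem_insert_self _ _))
      (ih fun j hj => hL j (Finset.mem_insert_of_mem hj))

lemma good_pow (c : ℂ) (j : ℕ) {L : ℕ → Module.End ℂ (MvPolynomial τ ℂ)} (hL : Good L) :
    Good fun s => ((s : ℂ) + c) ^ j • L s := by
  induction j with
  | zero => simpa using hL
  | succ j ih =>
    have h1 := good_add (good_s ih) (good_smul c ih)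
    refine (congrArg Good (funext fun s => ?_)).mp h1
    rw [smul_smul, smul_smul, ← add_smul, pow_succ']
    congr 1
    ring

end good

/-- a polynomial of an operator at an eigenvector -/
lemma aeval_eig {M : Type} [AddCommGroup M] [Module ℂ M] (A : Module.End ℂ M) (x : M) (l : ℂ)
    (h : A x = l • x) (b : Polynomial ℂ) : (Polynomial.aeval A b) x = b.eval l • x := by
  induction b using Polynomial.induction_on' with
  | add p q hp hq => rw [map_add, LinearMap.add_apply, hp, hq, Polynomial.eval_add, add_smul]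
  | monomial n a =>
    rw [Polynomial.aeval_monomial, Polynomial.eval_monomial, Module.End.mul_apply,
      Module.algebraMap_end_apply]
    have : (A ^ n) x = l ^ n • x := by
      induction n with
      | zero => simp
      | succ n ih => rw [pow_succ, Module.End.mul_apply, h, map_smul, ih, smul_smul, pow_succ']
    rw [this, smul_smul]

section main

variable {σ κ : Type} [Fintype κ]

/-- the variable `t` -/
noncomputable abbrev T (σ κ : Type) : MvPolynomial (Option σ ⊕ (κ ⊕ κ)) ℂ := X (Sum.inl none)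

/-- polynomials in `x` -/
noncomputable abbrev ex (κ : Type) (p : MvPolynomial σ ℂ) :
    MvPolynomial (Option σ ⊕ (κ ⊕ κ)) ℂ := rename (fun i => Sum.inl (some i)) p

/-- `∑ u_k v_k` -/
noncomputable def ww (σ κ : Type) [Fintype κ] : MvPolynomial (Option σ ⊕ (κ ⊕ κ)) ℂ :=
  ∑ k, X (Sum.inr (Sum.inl k)) * X (Sum.inr (Sum.inr k))

lemma quad_eq (f : MvPolynomial σ ℂ) : quad (cone f) κ = T σ κ * ex κ f + ww σ κ := by
  unfold quad cone ww
  rw [map_mul, rename_X, rename_rename]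
  rfl

/-- the derivative with respect to a variable -/
noncomputable def pd {τ : Type} (i : τ) : Module.End ℂ (MvPolynomial τ ℂ) :=
  ((pderiv i : Derivation ℂ (MvPolynomial τ ℂ) (MvPolynomial τ ℂ)) :
    MvPolynomial τ ℂ →ₗ[ℂ] MvPolynomial τ ℂ)

lemma pd_mem {τ : Type} (i : τ) : pd i ∈ weylS τ := Algebra.subset_adjoin (Or.inr ⟨i, rfl⟩)

lemma ml_mem {τ : Type} (i : τ) : LinearMap.mulLeft ℂ (X i : MvPolynomial τ ℂ) ∈ weylS τ :=
  Algebra.subset_adjoin (Or.inl ⟨i, rfl⟩)

/-- the derivative with respect to `t` -/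
noncomputable def dt (σ κ : Type) : Module.End ℂ (MvPolynomial (Option σ ⊕ (κ ⊕ κ)) ℂ) :=
  pd (Sum.inl none)

lemma dt_mem : dt σ κ ∈ weylS (Option σ ⊕ (κ ⊕ κ)) := pd_mem _

/-- `t d/dt` -/
noncomputable def th (σ κ : Type) : Module.End ℂ (MvPolynomial (Option σ ⊕ (κ ⊕ κ)) ℂ) :=
  LinearMap.mulLeft ℂ (T σ κ) * dt σ κ

lemma th_mem : th σ κ ∈ weylS (Option σ ⊕ (κ ⊕ κ)) :=
  Subalgebra.mul_mem _ (ml_mem _) dt_mem

lemma dt_apply (p : MvPolynomial (Option σ ⊕ (κ ⊕ κ)) ℂ) :
    dt σ κ p = pderiv (Sum.inl none) p := rfl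

lemma th_apply (p : MvPolynomial (Option σ ⊕ (κ ⊕ κ)) ℂ) :
    th σ κ p = T σ κ * pderiv (Sum.inl none) p := rfl

/-- `∑ d/du_k d/dv_k` -/
noncomputable def lap (σ κ : Type) [Fintype κ] :
    Module.End ℂ (MvPolynomial (Option σ ⊕ (κ ⊕ κ)) ℂ) :=
  ∑ k, pd (Sum.inr (Sum.inl k)) * pd (Sum.inr (Sum.inr k))

lemma lap_mem : lap σ κ ∈ weylS (Option σ ⊕ (κ ⊕ κ)) :=
  Subalgebra.sum_mem _ fun k _ => Subalgebra.mul_mem _ (pd_mem _) (pd_mem _)

lemma lap_apply (p : MvPolynomial (Option σ ⊕ (κ ⊕ κ)) ℂ) :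
    lap σ κ p = ∑ k, pderiv (Sum.inr (Sum.inl k)) (pderiv (Sum.inr (Sum.inr k)) p) := by
  unfold lap
  rw [LinearMap.sum_apply]
  rfl

lemma pderiv_rename_ne {α β : Type} (e : α → β) (i : β) (hi : ∀ a, e a ≠ i)
    (p : MvPolynomial α ℂ) : pderiv i (rename e p) = 0 := by
  classical
  induction p using MvPolynomial.induction_on with
  | C a => simp
  | add p q hp hq => simp only [map_add, hp, hq, add_zero]
  | mul_X p j hp =>
    rw [map_mul, rename_X, Derivation.leibniz, hp, smul_zero, add_zero, pderiv_X,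
      Pi.single_eq_of_ne (hi j), smul_zero]

lemma pderiv_rename_inj {α β : Type} (e : α → β) (he : Function.Injective e) (i : α)
    (p : MvPolynomial α ℂ) : pderiv (e i) (rename e p) = rename e (pderiv i p) := by
  classical
  induction p using MvPolynomial.induction_on with
  | C a => simp
  | add p q hp hq => simp only [map_add, hp, hq]
  | mul_X p j hp =>
    rw [map_mul, rename_X, Derivation.leibniz, Derivation.leibniz, hp, map_add, smul_eq_mul,
      smul_eq_mul, smul_eq_mul, smul_eq_mul, map_mul, map_mul, rename_X, pderiv_X, pderiv_X]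
    congr 2
    by_cases h : i = j
    · subst h
      simp
    · rw [Pi.single_eq_of_ne (fun h' => h (he h').symm), Pi.single_eq_of_ne (Ne.symm h), map_zero]

/-- operators in `x` extend -/
lemma ext_op (Q : Module.End ℂ (MvPolynomial σ ℂ)) (hQ : Q ∈ weylS σ) :
    ∃ R : weylS (Option σ ⊕ (κ ⊕ κ)), ∀ (p : MvPolynomial σ ℂ)
      (q : MvPolynomial (Option σ ⊕ (κ ⊕ κ)) ℂ),
      (∀ i : σ, pderiv (Sum.inl (some i)) q = 0) →
      (R : Module.End ℂ (MvPolynomial (Option σ ⊕ (κ ⊕ κ)) ℂ)) (ex κ p * q) = ex κ (Q p) * q := by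
  have hinj : Function.Injective fun i : σ => (Sum.inl (some i) : Option σ ⊕ (κ ⊕ κ)) :=
    fun i j h => Option.some_injective _ (Sum.inl_injective h)
  unfold weylS at hQ
  induction hQ using Algebra.adjoin_induction with
  | mem Q h =>
    rcases h with ⟨i, rfl⟩ | ⟨i, rfl⟩
    · refine ⟨⟨_, ml_mem (Sum.inl (some i))⟩, fun p q _ => ?_⟩
      change X (Sum.inl (some i)) * (ex κ p * q) = ex κ (X i * p) * q
      unfold ex
      rw [map_mul, rename_X, mul_assoc]
    · refine ⟨⟨_, pd_mem (Sum.inl (some i))⟩, fun p q hq => ?_⟩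
      change pderiv (Sum.inl (some i)) (ex κ p * q) = ex κ (pderiv i p) * q
      rw [Derivation.leibniz, hq i, smul_zero, zero_add, smul_eq_mul, mul_comm]
      unfold ex
      rw [pderiv_rename_inj (fun i : σ => (Sum.inl (some i) : Option σ ⊕ (κ ⊕ κ))) hinj i p]
  | algebraMap r =>
    refine ⟨algebraMap ℂ _ r, fun p q _ => ?_⟩
    change r • (ex κ p * q) = ex κ (r • p) * q
    unfold ex
    rw [map_smul, smul_mul_assoc]
  | add Q Q' _ _ h h' =>
    obtain ⟨R, hR⟩ := h
    obtain ⟨R', hR'⟩ := h'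
    refine ⟨R + R', fun p q hq => ?_⟩
    change (R : Module.End ℂ (MvPolynomial (Option σ ⊕ (κ ⊕ κ)) ℂ)) _ +
      (R' : Module.End ℂ (MvPolynomial (Option σ ⊕ (κ ⊕ κ)) ℂ)) _ = _
    rw [hR p q hq, hR' p q hq, LinearMap.add_apply]
    unfold ex
    rw [map_add, add_mul]
  | mul Q Q' _ _ h h' =>
    obtain ⟨R, hR⟩ := h
    obtain ⟨R', hR'⟩ := h'
    refine ⟨R * R', fun p q hq => ?_⟩
    change (R : Module.End ℂ (MvPolynomial (Option σ ⊕ (κ ⊕ κ)) ℂ))
      ((R' : Module.End ℂ (MvPolynomial (Option σ ⊕ (κ ⊕ κ)) ℂ)) _) = _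
    rw [hR' p q hq, hR _ q hq, Module.End.mul_apply]

/-- a polynomial in which `t` does not occur -/
lemma dt_ex (p : MvPolynomial σ ℂ) : pderiv (Sum.inl none) (ex κ p) = 0 :=
  pderiv_rename_ne _ _ (fun a h => by cases Sum.inl_injective h) p

lemma pderiv_ww {i : Option σ} : pderiv (Sum.inl i) (ww σ κ) = 0 := by
  classical
  unfold ww
  rw [map_sum]
  refine Finset.sum_eq_zero fun k _ => ?_
  rw [Derivation.leibniz, pderiv_X, pderiv_X, Pi.single_eq_of_ne (by simp),
    Pi.single_eq_of_ne (by simp), smul_zero, smul_zero, add_zero]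

lemma pderiv_ww_pow {i : Option σ} (n : ℕ) : pderiv (Sum.inl i) (ww σ κ ^ n) = 0 := by
  rw [Derivation.leibniz_pow, pderiv_ww, smul_zero, smul_zero]

/-- `t^k f^l w^n` -/
noncomputable def mon (f : MvPolynomial σ ℂ) (k n : ℕ) :
    MvPolynomial (Option σ ⊕ (κ ⊕ κ)) ℂ := ex κ f * (T σ κ ^ k * ww σ κ ^ n)

lemma dt_mon (f : MvPolynomial σ ℂ) (k n : ℕ) :
    pderiv (Sum.inl none) (mon (κ := κ) f (k + 1) n) = ((k + 1 : ℕ) : ℂ) • mon (κ := κ) f k n := by
  classical
  unfold mon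
  rw [Derivation.leibniz, dt_ex, smul_zero, add_zero, Derivation.leibniz, pderiv_ww_pow,
    smul_zero, zero_add, Derivation.leibniz_pow, pderiv_X_self]
  simp only [smul_eq_mul, Nat.add_sub_cancel, mul_one, nsmul_eq_mul, ← Nat.cast_smul_eq_nsmul ℂ,
    smul_eq_C_mul]
  simp only [map_natCast]
  ring

lemma dt_mon0 (f : MvPolynomial σ ℂ) (n : ℕ) :
    pderiv (Sum.inl none) (mon (κ := κ) f 0 n) = 0 := by
  unfold mon
  rw [pow_zero, one_mul, Derivation.leibniz, dt_ex, pderiv_ww_pow, smul_zero, smul_zero, add_zero]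

lemma th_mon (f : MvPolynomial σ ℂ) (k n : ℕ) :
    th σ κ (mon f k n) = (k : ℂ) • mon f k n := by
  rw [th_apply]
  cases k with
  | zero => rw [dt_mon0, mul_zero, Nat.cast_zero, zero_smul]
  | succ k =>
    rw [dt_mon, mul_smul_comm]
    congr 1
    unfold mon
    ring

lemma free_mon (k n : ℕ) (i : σ) :
    pderiv (Sum.inl (some i)) (T σ κ ^ k * ww σ κ ^ n) = 0 := by
  classical
  rw [Derivation.leibniz, pderiv_ww_pow, smul_zero, zero_add, Derivation.leibniz_pow, pderiv_X,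
    Pi.single_eq_of_ne (by simp), smul_zero, smul_zero, smul_zero]

/-- the expansion of `F ^ n` -/
lemma pow_expand (f : MvPolynomial σ ℂ) (n : ℕ) :
    (quad (cone f) κ) ^ n = ∑ k ∈ Finset.range (n + 1),
      (n.choose k : ℂ) • mon (κ := κ) (f ^ k) k (n - k) := by
  rw [quad_eq, add_pow]
  refine Finset.sum_congr rfl fun k _ => ?_
  unfold mon ex
  rw [map_pow, smul_eq_C_mul, map_natCast, mul_pow]
  ring

/-- the polynomial `b(θ)` -/
lemma b_th (f : MvPolynomial σ ℂ) (b : Polynomial ℂ) (s : ℕ) :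
    (Polynomial.aeval (th σ κ) b) ((quad (cone f) κ) ^ s) =
      ∑ k ∈ Finset.range (s + 1), ((s.choose k : ℂ) * b.eval (k : ℂ)) •
        mon (κ := κ) (f ^ k) k (s - k) := by
  rw [pow_expand, map_sum]
  refine Finset.sum_congr rfl fun k _ => ?_
  rw [map_smul, aeval_eig _ _ _ (th_mon (κ := κ) (f ^ k) k (s - k)), smul_smul]

/-- the operator `P(θ - 1)` -/
lemma first_op (f : MvPolynomial σ ℂ) (b : Polynomial ℂ) (hb : IsBFunction f b) :
    ∃ L ∈ weylS (Option σ ⊕ (κ ⊕ κ)), ∀ s : ℕ, L ((quad (cone f) κ) ^ (s + 1)) =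
      ((s : ℂ) + 1) • (Polynomial.aeval (th σ κ) b) ((quad (cone f) κ) ^ s) := by
  classical
  obtain ⟨P, hP⟩ := hb
  choose R hR using fun Q : weylS σ => ext_op (κ := κ) Q.1 Q.2
  set N : Module.End ℂ (MvPolynomial (Option σ ⊕ (κ ⊕ κ)) ℂ) := th σ κ - 1 with hN
  have hNm : N ∈ weylS (Option σ ⊕ (κ ⊕ κ)) :=
    Subalgebra.sub_mem _ th_mem (Subalgebra.one_mem _)
  set M : Module.End ℂ (MvPolynomial (Option σ ⊕ (κ ⊕ κ)) ℂ) :=
    ∑ m ∈ P.support, (R (P m) : Module.End ℂ (MvPolynomial (Option σ ⊕ (κ ⊕ κ)) ℂ)) * N ^ m with hM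
  have hMm : M ∈ weylS (Option σ ⊕ (κ ⊕ κ)) := Subalgebra.sum_mem _ fun m _ =>
    Subalgebra.mul_mem _ (R (P m)).2 (Subalgebra.pow_mem _ hNm m)
  have hpow : ∀ (g : MvPolynomial σ ℂ) (k n m : ℕ), (N ^ m) (mon (κ := κ) g k n) =
      ((k : ℂ) - 1) ^ m • mon g k n := by
    intro g k n m
    have h1 : N (mon (κ := κ) g k n) = ((k : ℂ) - 1) • mon g k n := by
      rw [hN, LinearMap.sub_apply, th_mon, Module.End.one_apply, sub_smul, one_smul]
    induction m with
    | zero => simp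
    | succ m ih => rw [pow_succ, Module.End.mul_apply, h1, map_smul, ih, smul_smul, pow_succ']
  have hMon : ∀ (g : MvPolynomial σ ℂ) (k n : ℕ), M (mon (κ := κ) g k n) =
      mon (∑ m ∈ P.support, (((k : ℂ) - 1) ^ m) • (P m : Module.End ℂ (MvPolynomial σ ℂ)) g) k n := by
    intro g k n
    rw [hM, LinearMap.sum_apply]
    have h2 : ∀ m ∈ P.support, ((R (P m) : Module.End ℂ (MvPolynomial (Option σ ⊕ (κ ⊕ κ)) ℂ)) *
        N ^ m) (mon (κ := κ) g k n) = mon (κ := κ)
          ((((k : ℂ) - 1) ^ m) • (P m : Module.End ℂ (MvPolynomial σ ℂ)) g) k n := by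
      intro m _
      rw [Module.End.mul_apply, hpow, map_smul]
      unfold mon
      rw [hR (P m) g _ (fun i => free_mon k n i)]
      unfold ex
      rw [map_smul, smul_mul_assoc]
    rw [Finset.sum_congr rfl h2]
    unfold mon ex
    rw [map_sum, Finset.sum_mul]
  refine ⟨dt σ κ * M, Subalgebra.mul_mem _ dt_mem hMm, fun s => ?_⟩
  rw [Module.End.mul_apply, pow_expand, map_sum, map_sum, Finset.sum_range_succ', b_th,
    Finset.smul_sum]
  have h0 : dt σ κ (M ((((s + 1).choose 0 : ℕ) : ℂ) • mon (κ := κ) (f ^ 0) 0 (s + 1 - 0))) = 0 := by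
    rw [map_smul, map_smul, hMon, dt_apply, dt_mon0, smul_zero]
  rw [h0, add_zero]
  refine Finset.sum_congr rfl fun k _ => ?_
  rw [map_smul, map_smul, hMon, dt_apply, dt_mon, smul_smul, smul_smul]
  have h3 : ∑ m ∈ P.support, ((((k + 1 : ℕ) : ℂ) - 1) ^ m) •
      (P m : Module.End ℂ (MvPolynomial σ ℂ)) (f ^ (k + 1)) = C (b.eval (k : ℂ)) * f ^ k := by
    rw [hP k, Finsupp.sum]
    refine Finset.sum_congr rfl fun m _ => ?_
    congr 2
    push_cast
    ring
  rw [h3, Nat.add_sub_add_right]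
  have h4 : mon (κ := κ) (C (b.eval (k : ℂ)) * f ^ k) k (s - k) =
      (b.eval (k : ℂ)) • mon (κ := κ) (f ^ k) k (s - k) := by
    unfold mon ex
    rw [← smul_eq_C_mul, map_smul, smul_mul_assoc]
  rw [h4, smul_smul]
  congr 1
  have h5 := Nat.add_one_mul_choose_eq s k
  have h6 : ((s : ℂ) + 1) * (s.choose k : ℂ) = ((s + 1).choose (k + 1) : ℂ) * ((k : ℂ) + 1) := by
    exact_mod_cast h5
  push_cast
  linear_combination (-(b.eval (k : ℂ))) * h6

lemma lap_pow (f : MvPolynomial σ ℂ) (s : ℕ) : lap σ κ ((quad (cone f) κ) ^ (s + 1)) =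
    ((s : ℂ) + 1) • (((s : ℂ) + (Fintype.card κ : ℂ)) • (quad (cone f) κ) ^ s -
      th σ κ ((quad (cone f) κ) ^ s)) := by
  classical
  set F : MvPolynomial (Option σ ⊕ (κ ⊕ κ)) ℂ := quad (cone f) κ with hF
  have hFe : F = T σ κ * ex κ f + ww σ κ := quad_eq f
  have hv : ∀ k : κ, pderiv (Sum.inr (Sum.inr k)) F = X (Sum.inr (Sum.inl k)) := by
    intro k
    rw [hFe, map_add, Derivation.leibniz, pderiv_X, Pi.single_eq_of_ne (by simp),
      pderiv_rename_ne _ _ (fun a h => by cases h), smul_zero, smul_zero, add_zero, zero_add]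
    unfold ww
    rw [map_sum, Finset.sum_eq_single k]
    · rw [Derivation.leibniz, pderiv_X_self, pderiv_X, Pi.single_eq_of_ne (by simp), smul_zero,
        add_zero, smul_eq_mul, mul_one]
    · intro j _ hj
      rw [Derivation.leibniz, pderiv_X, pderiv_X, Pi.single_eq_of_ne (by simpa using hj),
        Pi.single_eq_of_ne (by simp), smul_zero, smul_zero, add_zero]
    · intro h
      exact absurd (Finset.mem_univ _) h
  have hu : ∀ k : κ, pderiv (Sum.inr (Sum.inl k)) F = X (Sum.inr (Sum.inr k)) := by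
    intro k
    rw [hFe, map_add, Derivation.leibniz, pderiv_X, Pi.single_eq_of_ne (by simp),
      pderiv_rename_ne _ _ (fun a h => by cases h), smul_zero, smul_zero, add_zero, zero_add]
    unfold ww
    rw [map_sum, Finset.sum_eq_single k]
    · rw [Derivation.leibniz, pderiv_X_self, pderiv_X, Pi.single_eq_of_ne (by simp), smul_zero,
        zero_add, smul_eq_mul, mul_one]
    · intro j _ hj
      rw [Derivation.leibniz, pderiv_X, pderiv_X, Pi.single_eq_of_ne (by simp),
        Pi.single_eq_of_ne (by simpa using hj), smul_zero, smul_zero, add_zero]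
    · intro h
      exact absurd (Finset.mem_univ _) h
  have ht : pderiv (Sum.inl none) F = ex κ f := by
    rw [hFe, map_add, Derivation.leibniz, pderiv_X_self, dt_ex, pderiv_ww, smul_zero, zero_add,
      add_zero, smul_eq_mul, mul_one]
  rw [lap_apply, th_apply]
  have h1 : ∀ k : κ, pderiv (Sum.inr (Sum.inl k)) (pderiv (Sum.inr (Sum.inr k)) (F ^ (s + 1))) =
      ((s : ℂ) + 1) • (F ^ s + ((s : ℂ) • F ^ (s - 1)) *
        (X (Sum.inr (Sum.inl k)) * X (Sum.inr (Sum.inr k)))) := by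
    intro k
    rw [Derivation.leibniz_pow, hv, Nat.add_sub_cancel, map_nsmul, smul_eq_mul,
      Derivation.leibniz, Derivation.leibniz_pow, hu, pderiv_X_self, ← Nat.cast_smul_eq_nsmul ℂ,
      ← Nat.cast_smul_eq_nsmul ℂ]
    push_cast
    congr 1
    simp only [smul_eq_mul, mul_one, smul_eq_C_mul]
    ring
  rw [Finset.sum_congr rfl fun k _ => h1 k, ← Finset.smul_sum, Finset.sum_add_distrib,
    ← Finset.mul_sum, Finset.sum_const, Finset.card_univ]
  congr 1
  have h2 : (∑ k : κ, X (Sum.inr (Sum.inl k)) * X (Sum.inr (Sum.inr k)) :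
      MvPolynomial (Option σ ⊕ (κ ⊕ κ)) ℂ) = F - T σ κ * ex κ f := by
    rw [hFe, add_sub_cancel_left]
    rfl
  rw [h2, Derivation.leibniz_pow, ht, ← Nat.cast_smul_eq_nsmul ℂ, ← Nat.cast_smul_eq_nsmul ℂ]
  rcases s with _ | s
  · simp
  · rw [Nat.add_sub_cancel]
    simp only [smul_eq_mul, smul_eq_C_mul, map_add, map_natCast]
    push_cast
    ring

/-- **The functional equation of `t f(x) + ∑ u_k v_k`.** -/
theorem b2 : S_B2 := by
  classical
  intro σ κ _ _ f b hb
  obtain ⟨L1, hL1, h1⟩ := first_op (κ := κ) f b hb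
  set c : ℂ := (Fintype.card κ : ℂ) with hc
  set Θ : Module.End ℂ (MvPolynomial (Option σ ⊕ (κ ⊕ κ)) ℂ) := th σ κ with hΘ
  set L2 : ℕ → Module.End ℂ (MvPolynomial (Option σ ⊕ (κ ⊕ κ)) ℂ) := fun s =>
    ∑ i ∈ b.support, b.coeff i • ∑ j ∈ Finset.range i,
      ((s : ℂ) + c) ^ j • (Θ ^ (i - 1 - j) * lap σ κ) with hL2
  have hg2 : Good L2 := good_sum _ _ fun i _ => good_smul _ (good_sum _ _ fun j _ =>
    good_pow c j (good_const (Subalgebra.mul_mem _ (Subalgebra.pow_mem _ th_mem _) lap_mem)))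
  obtain ⟨P, hP⟩ := good_add (good_const hL1) hg2
  refine ⟨P, fun s => ?_⟩
  have h3 : (P.sum fun m Q => ((s : ℂ) ^ m) • (Q : Module.End ℂ (MvPolynomial (Option σ ⊕ (κ ⊕ κ)) ℂ))
      ((quad (cone f) κ) ^ (s + 1))) = (L1 + L2 s) ((quad (cone f) κ) ^ (s + 1)) := by
    have h10 : L1 + L2 s = P.sum fun m Q => ((s : ℂ) ^ m) •
      (Q : Module.End ℂ (MvPolynomial (Option σ ⊕ (κ ⊕ κ)) ℂ)) := hP s
    rw [h10, Finsupp.sum, Finsupp.sum, LinearMap.sum_apply]
    rfl
  rw [h3, LinearMap.add_apply, h1]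
  set G : MvPolynomial (Option σ ⊕ (κ ⊕ κ)) ℂ := (quad (cone f) κ) ^ s with hG
  have h4 : L2 s ((quad (cone f) κ) ^ (s + 1)) = ((s : ℂ) + 1) •
      (b.eval ((s : ℂ) + c) • G - (Polynomial.aeval Θ b) G) := by
    have h5 : ∀ i : ℕ, (∑ j ∈ Finset.range i, ((s : ℂ) + c) ^ j • (Θ ^ (i - 1 - j) * lap σ κ))
        ((quad (cone f) κ) ^ (s + 1)) = ((s : ℂ) + 1) •
          ((((s : ℂ) + c) ^ i) • G - (Θ ^ i) G) := by
      intro i
      have hcomm : Commute (algebraMap ℂ (Module.End ℂ (MvPolynomial (Option σ ⊕ (κ ⊕ κ)) ℂ))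
          ((s : ℂ) + c)) Θ := Algebra.commutes _ _
      have h6 := hcomm.geom_sum₂_mul i
      have h7 := congrArg (fun A : Module.End ℂ (MvPolynomial (Option σ ⊕ (κ ⊕ κ)) ℂ) => A G) h6
      simp only [Module.End.mul_apply, LinearMap.sub_apply, LinearMap.sum_apply, ← map_pow,
        Module.algebraMap_end_apply] at h7
      rw [LinearMap.sum_apply]
      rw [← h7, Finset.smul_sum]
      refine Finset.sum_congr rfl fun j _ => ?_
      rw [LinearMap.smul_apply, Module.End.mul_apply, lap_pow, map_smul, smul_comm]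
    rw [hL2]
    simp only [LinearMap.sum_apply]
    simp only [LinearMap.smul_apply]
    have h8 : ∀ i ∈ b.support, b.coeff i • ((∑ j ∈ Finset.range i, ((s : ℂ) + c) ^ j •
        (Θ ^ (i - 1 - j) * lap σ κ)) ((quad (cone f) κ) ^ (s + 1))) =
        ((s : ℂ) + 1) • (b.coeff i • (((s : ℂ) + c) ^ i) • G - b.coeff i • (Θ ^ i) G) := by
      intro i _
      rw [h5 i, smul_comm, smul_sub]
    rw [Finset.sum_congr rfl h8, ← Finset.smul_sum, Finset.sum_sub_distrib]
    congr 2
    · rw [Polynomial.eval_eq_sum, Polynomial.sum, Finset.sum_smul]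
      refine Finset.sum_congr rfl fun i _ => ?_
      rw [smul_smul]
    · rw [Polynomial.aeval_eq_sum_range' (Nat.lt_succ_self b.natDegree), LinearMap.sum_apply]
      have h9 : ∀ i ∈ Finset.range (b.natDegree + 1), i ∉ b.support → (b.coeff i • Θ ^ i) G = 0 := by
        intro i _ hi
        rw [Polynomial.notMem_support_iff.1 hi, zero_smul, LinearMap.zero_apply]
      rw [← Finset.sum_subset (s₁ := b.support) (fun i hi => Finset.mem_range.2
        (Nat.lt_succ_of_le (Polynomial.le_natDegree_of_mem_supp i hi))) h9]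
      rfl
  rw [h4, ← smul_add, add_sub_cancel, smul_smul, ← smul_eq_C_mul]
  congr 1
  rw [Polynomial.eval_mul, Polynomial.eval_comp, Polynomial.eval_add, Polynomial.eval_add,
    Polynomial.eval_X, Polynomial.eval_one, Polynomial.eval_C]

end main

end Pool.Agent.N165.CU
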