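import Pool.Agent.N165.CU.Stm

set_option autoImplicit false
set_option linter.unusedSectionVars false

/-! # Automorphisms: numbers of solutions, and base change -/

namespace Pool.Agent.N165.CU

open MvPolynomial Pool.Agent.W427.SMC

theorem c1 : S_C1 := by
  intro p m τ Φ g
  unfold solCount
  refine Nat.card_congr ?_
  -- the map on points
  have hcomp : ∀ (Ψ : MvPolynomial τ ℤ →ₐ[ℤ] MvPolynomial τ ℤ) (w : τ → ZMod (p ^ m))
      (q : MvPolynomial τ ℤ), aeval (fun i => aeval w (Ψ (X i))) q = aeval w (Ψ q) := by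
    intro Ψ w q
    have h : (aeval (fun i => aeval w (Ψ (X i))) : MvPolynomial τ ℤ →ₐ[ℤ] ZMod (p ^ m)) =
        (aeval w).comp Ψ := by
      apply MvPolynomial.algHom_ext
      intro i
      rw [aeval_X, AlgHom.comp_apply]
    rw [h, AlgHom.comp_apply]
  refine ⟨fun w => ⟨fun i => aeval w.1 (Φ (X i)), ?_⟩, fun w => ⟨fun i => aeval w.1 (Φ.symm (X i)), ?_⟩,
    ?_, ?_⟩
  · have := hcomp Φ.toAlgHom w.1 g
    exact this.trans w.2
  · have := hcomp Φ.symm.toAlgHom w.1 (Φ g)
    refine this.trans ?_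
    change aeval w.1 (Φ.symm (Φ g)) = 0
    rw [AlgEquiv.symm_apply_apply]
    exact w.2
  · intro w
    apply Subtype.ext
    funext i
    change aeval (fun i => aeval w.1 (Φ (X i))) (Φ.symm (X i)) = w.1 i
    have := hcomp Φ.toAlgHom w.1 (Φ.symm (X i))
    refine this.trans ?_
    change aeval w.1 (Φ (Φ.symm (X i))) = w.1 i
    rw [AlgEquiv.apply_symm_apply, aeval_X]
  · intro w
    apply Subtype.ext
    funext i
    change aeval (fun i => aeval w.1 (Φ.symm (X i))) (Φ (X i)) = w.1 i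
    have := hcomp Φ.symm.toAlgHom w.1 (Φ (X i))
    refine this.trans ?_
    change aeval w.1 (Φ.symm (Φ (X i))) = w.1 i
    rw [AlgEquiv.symm_apply_apply, aeval_X]

/-- the base change of an algebra homomorphism -/
noncomputable def bcH {τ : Type} (Ψ : MvPolynomial τ ℤ →ₐ[ℤ] MvPolynomial τ ℤ) :
    MvPolynomial τ ℂ →ₐ[ℂ] MvPolynomial τ ℂ :=
  aeval fun i => map (Int.castRingHom ℂ) (Ψ (X i))

lemma bcH_map {τ : Type} (Ψ : MvPolynomial τ ℤ →ₐ[ℤ] MvPolynomial τ ℤ) (q : MvPolynomial τ ℤ) :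
    bcH Ψ (map (Int.castRingHom ℂ) q) = map (Int.castRingHom ℂ) (Ψ q) := by
  induction q using MvPolynomial.induction_on with
  | C a =>
    rw [map_C]
    have h1 : Ψ (C a) = C a := Ψ.commutes a
    have h2 : bcH Ψ (C ((Int.castRingHom ℂ) a)) = C ((Int.castRingHom ℂ) a) :=
      (bcH Ψ).commutes _
    rw [h1, h2, map_C]
  | add p q hp hq => simp only [map_add, hp, hq]
  | mul_X p i hp =>
    rw [map_mul, map_mul, map_mul, map_mul, hp, map_X]
    congr 1
    unfold bcH
    rw [aeval_X]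

/-- the base change of an automorphism -/
noncomputable def bcE {τ : Type} (Φ : MvPolynomial τ ℤ ≃ₐ[ℤ] MvPolynomial τ ℤ) :
    MvPolynomial τ ℂ ≃ₐ[ℂ] MvPolynomial τ ℂ :=
  AlgEquiv.ofAlgHom (bcH Φ.toAlgHom) (bcH Φ.symm.toAlgHom)
    (by
      apply MvPolynomial.algHom_ext
      intro i
      rw [AlgHom.comp_apply]
      have h1 : bcH Φ.symm.toAlgHom (X i) = map (Int.castRingHom ℂ) (Φ.symm (X i)) := by
        unfold bcH
        rw [aeval_X]
        rfl
      rw [h1, bcH_map]
      change map (Int.castRingHom ℂ) (Φ (Φ.symm (X i))) = X i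
      rw [AlgEquiv.apply_symm_apply, map_X])
    (by
      apply MvPolynomial.algHom_ext
      intro i
      rw [AlgHom.comp_apply]
      have h1 : bcH Φ.toAlgHom (X i) = map (Int.castRingHom ℂ) (Φ (X i)) := by
        unfold bcH
        rw [aeval_X]
        rfl
      rw [h1, bcH_map]
      change map (Int.castRingHom ℂ) (Φ.symm (Φ (X i))) = X i
      rw [AlgEquiv.symm_apply_apply, map_X])

lemma bcE_map {τ : Type} (Φ : MvPolynomial τ ℤ ≃ₐ[ℤ] MvPolynomial τ ℤ) (q : MvPolynomial τ ℤ) :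
    bcE Φ (map (Int.castRingHom ℂ) q) = map (Int.castRingHom ℂ) (Φ q) :=
  bcH_map Φ.toAlgHom q

lemma map_quad {R S : Type} [CommRing R] [CommRing S] (φ : R →+* S) {ρ κ : Type} [Fintype κ]
    (h : MvPolynomial ρ R) : map φ (quad h κ) = quad (map φ h) κ := by
  unfold quad
  rw [map_add, map_rename, map_sum]
  congr 1
  refine Finset.sum_congr rfl fun k _ => ?_
  rw [map_mul, map_X, map_X]

lemma map_cone {R S : Type} [CommRing R] [CommRing S] (φ : R →+* S) {σ : Type}
    (f : MvPolynomial σ R) : map φ (cone f) = cone (map φ f) := by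
  unfold cone
  rw [map_mul, map_X, map_rename]

end Pool.Agent.N165.CU
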