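import Pool.Agent.W427.SMC.Defs

set_option autoImplicit false

/-! # Cubic universality: the polynomials `t f(x) + ∑ u_k v_k` -/

namespace Pool.Agent.N165.CU

open MvPolynomial

/-- The polynomial `h + ∑_{k ∈ κ} u_k v_k` with further variables `u_k`, `v_k`. -/
noncomputable def quad {R : Type} [CommRing R] {ρ : Type} (h : MvPolynomial ρ R) (κ : Type)
    [Fintype κ] : MvPolynomial (ρ ⊕ (κ ⊕ κ)) R :=
  rename Sum.inl h + ∑ k, X (Sum.inr (Sum.inl k)) * X (Sum.inr (Sum.inr k))

/-- The polynomial `t f(x)` with a further variable `t = X none`. -/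
noncomputable def cone {R : Type} [CommRing R] {σ : Type} (f : MvPolynomial σ R) :
    MvPolynomial (Option σ) R :=
  X none * rename some f

end Pool.Agent.N165.CU
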