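import Pool.Agent.N165.CU.Poin
import Pool.Agent.N475.CU.B1
import Pool.Agent.N935.CU.C2
import Pool.Agent.N457.CU.Z
import Pool.Agent.N400.CU.Hyp

set_option autoImplicit false
set_option linter.unusedSectionVars false

/-! # Assembly -/

namespace Pool.Agent.N165.CU

open MvPolynomial Pool.Agent.W427.SMC Pool.Agent.H628R4.TP

theorem parts : Parts where
  hyp := Pool.Agent.N400.CU.hyp_normal
  b1 := Pool.Agent.N475.CU.b1
  b2 := b2
  c2 := Pool.Agent.N935.CU.c2
  z := Pool.Agent.N457.CU.tz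

/-- The dictionary between `f` and the hypergraph polynomial. -/
theorem dictionary {V : Type} [Fintype V] (f : MvPolynomial V ℤ) :
    ∃ (W : Type) (_ : Fintype W) (E : Finset (Finset W)) (m : ℕ),
      (∀ e ∈ E, 1 ≤ e.card ∧ e.card ≤ 3) ∧ 2 ≤ m ∧
      (∀ (p : ℕ) [Fact p.Prime] (s : ℂ), 0 < s.re →
        (p : ℂ) ^ (-s) * ((p : ℂ) - (p : ℂ) ^ (-s)) * (1 - (p : ℂ) ^ (-(s + (m : ℂ)))) *
          padicZeta p (hypergraphPoly E) s =
        ((p : ℂ) - 1) * ((p : ℂ) ^ (-s) - (p : ℂ) ^ (-(s + (m : ℂ))) +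
          (1 - (p : ℂ) ^ (-s)) * (p : ℂ) ^ (-(s + (m : ℂ))) *
            padicZeta p (map (Int.castRingHom ℚ) f) (s + (m : ℂ)))) ∧
      ∀ b : Polynomial ℂ, IsBFunction (map (Int.castRingHom ℂ) f) b →
        IsBFunction (map (algebraMap ℚ ℂ) (hypergraphPoly E))
          ((Polynomial.X + 1) * b.comp (Polynomial.X + Polynomial.C (m : ℂ))) := by
  obtain ⟨κ, hκ, Φ, E, hκ2, hE, hΦ⟩ := parts.hyp (Option V) (cone f)
  refine ⟨Option V ⊕ (κ ⊕ κ), inferInstance, E, Fintype.card κ, hE, hκ2, ?_, ?_⟩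
  · intro p _ s hs
    have h1 := zeta_rel p (κ := κ) parts.c2 parts.z f s hs
    rw [← map_hyp, zeta_int, ← hΦ, zeta_auto p parts.z Φ _ s hs, zeta_int]
    exact h1
  · intro b hb
    have h4 := parts.b2 V κ (map (Int.castRingHom ℂ) f) b hb
    rw [← map_cone, ← map_quad] at h4
    have h5 := parts.b1 _ (bcE Φ) _ _ h4
    rw [bcE_map, hΦ] at h5
    have h6 : map (algebraMap ℚ ℂ) (hypergraphPoly E) = map (Int.castRingHom ℂ) (hyp E) := by
      rw [← map_hyp, MvPolynomial.map_map]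
      congr 1
    rw [h6]
    exact h5

/-- The dictionary for the Poincare series. -/
theorem dictionary_poincare {V : Type} [Fintype V] (f : MvPolynomial V ℤ) :
    ∃ (W : Type) (_ : Fintype W) (E : Finset (Finset W)) (m : ℕ),
      (∀ e ∈ E, 1 ≤ e.card ∧ e.card ≤ 3) ∧ 2 ≤ m ∧
      (∀ (p : ℕ) [Fact p.Prime],
        (PowerSeries.C (p : ℂ) - PowerSeries.X) * poincare p (hyp E) =
          1 + PowerSeries.C ((p : ℂ) - 1) *
            PowerSeries.rescale (((p : ℂ) ^ m)⁻¹) (poincare p f)) ∧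
      ∀ b : Polynomial ℂ, IsBFunction (map (Int.castRingHom ℂ) f) b →
        IsBFunction (map (Int.castRingHom ℂ) (hyp E))
          ((Polynomial.X + 1) * b.comp (Polynomial.X + Polynomial.C (m : ℂ))) := by
  obtain ⟨κ, hκ, Φ, E, hκ2, hE, hΦ⟩ := parts.hyp (Option V) (cone f)
  refine ⟨Option V ⊕ (κ ⊕ κ), inferInstance, E, Fintype.card κ, hE, hκ2, ?_, ?_⟩
  · intro p _
    have hP : poincare p (hyp E) = poincare p (quad (cone f) κ) := by
      rw [← hΦ]
      unfold poincare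
      congr 1
      funext m
      rw [c1 p m _ Φ]
    rw [hP]
    exact poincare_rel p (κ := κ) parts.c2 f
  · intro b hb
    have h4 := parts.b2 V κ (map (Int.castRingHom ℂ) f) b hb
    rw [← map_cone, ← map_quad] at h4
    have h5 := parts.b1 _ (bcE Φ) _ _ h4
    rwa [bcE_map, hΦ] at h5

end Pool.Agent.N165.CU
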