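import Pool.Agent.N165.CU.Rat

set_option autoImplicit false
set_option linter.unusedSectionVars false

/-! # Cubic universality for the Poincare series -/

namespace Pool.Agent.N165.CU

open MvPolynomial Pool.Agent.W427.SMC Pool.Agent.H628R4.TP

/-- the value of a power series -/
def HS (S : PowerSeries ℂ) (T c : ℂ) : Prop :=
  HasSum (fun n => PowerSeries.coeff n S * T ^ n) c

lemma HS.add {S S' : PowerSeries ℂ} {T c c' : ℂ} (h : HS S T c) (h' : HS S' T c') :
    HS (S + S') T (c + c') := by
  unfold HS at *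
  have h1 := HasSum.add h h'
  simp only [← add_mul, ← map_add] at h1
  exact h1

lemma HS.C_mul {S : PowerSeries ℂ} {T c : ℂ} (a : ℂ) (h : HS S T c) :
    HS (PowerSeries.C a * S) T (a * c) := by
  unfold HS at *
  have h1 := HasSum.mul_left a h
  simp only [← mul_assoc] at h1
  simp only [PowerSeries.coeff_C_mul]
  exact h1

lemma HS.X_mul {S : PowerSeries ℂ} {T c : ℂ} (h : HS S T c) :
    HS (PowerSeries.X * S) T (T * c) := by
  unfold HS at *
  rw [← hasSum_nat_add_iff' 1]
  simp only [Finset.range_one, Finset.sum_singleton, PowerSeries.coeff_zero_X_mul, zero_mul,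
    sub_zero, PowerSeries.coeff_succ_X_mul]
  have h1 := HasSum.mul_left T h
  refine (congrArg (fun f => HasSum f (T * c)) (funext fun n => ?_)).mp h1
  rw [pow_succ]
  ring

lemma HS.poly_mul {S : PowerSeries ℂ} {T c : ℂ} (h : HS S T c) (D : Polynomial ℂ) :
    HS ((D : PowerSeries ℂ) * S) T (D.eval T * c) := by
  induction D using Polynomial.induction_on' with
  | add p q hp hq =>
    rw [Polynomial.coe_add, add_mul, Polynomial.eval_add, add_mul]
    exact hp.add hq
  | monomial n a =>
    have h1 : ∀ n : ℕ, HS (PowerSeries.X ^ n * S) T (T ^ n * c) := by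
      intro n
      induction n with
      | zero => simpa using h
      | succ n ih =>
        rw [pow_succ', pow_succ', mul_assoc, mul_assoc]
        exact ih.X_mul
    have h2 : ((Polynomial.monomial n a : Polynomial ℂ) : PowerSeries ℂ) =
        PowerSeries.C a * PowerSeries.X ^ n := by
      rw [← Polynomial.C_mul_X_pow_eq_monomial, Polynomial.coe_mul, Polynomial.coe_pow,
        Polynomial.coe_C, Polynomial.coe_X]
    rw [h2, mul_assoc, Polynomial.eval_monomial, mul_assoc]
    exact (h1 n).C_mul a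

lemma HS.one (T : ℂ) : HS 1 T 1 := by
  unfold HS
  have h : (fun n => PowerSeries.coeff n (1 : PowerSeries ℂ) * T ^ n) =
      fun n => if n = 0 then 1 else 0 := by
    funext n
    rw [PowerSeries.coeff_one]
    by_cases h : n = 0
    · simp [h]
    · simp [h]
  rw [h]
  exact hasSum_ite_eq 0 1

lemma HS.poly (D : Polynomial ℂ) (T : ℂ) : HS (D : PowerSeries ℂ) T (D.eval T) := by
  have := (HS.one T).poly_mul D
  rwa [mul_one, mul_one] at this

section

variable (p : ℕ) [Fact p.Prime]

/-- **The strong monodromy conjecture for the Poincare series of `f` and the prime `p`**: let the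
Poincare series be equal to `N / D` with coprime polynomials `N`, `D`; then `t₀ = - log |T₀| / log p` is
a root of `b`, for every zero `T₀` of `D` and every `b` which satisfies a functional equation
`b(s) f ^ s = P(s) f ^ (s + 1)`. -/
def PoincareMonodromy {V : Type} [Fintype V] (f : MvPolynomial V ℤ) : Prop :=
  ∀ N D : Polynomial ℂ, IsCoprime N D → (D : PowerSeries ℂ) * poincare p f = (N : PowerSeries ℂ) →
    ∀ T₀ : ℂ, D.eval T₀ = 0 → ∀ b : Polynomial ℂ,
      IsBFunction (map (Int.castRingHom ℂ) f) b →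
      b.eval ((-Real.log ‖T₀‖ / Real.log p : ℝ) : ℂ) = 0

/-- **The strong monodromy conjecture with orders for the Poincare series**: the multiplicity of `T₀`
as a zero of `D` is at most the multiplicity of `t₀` as a root of `b`. -/
def PoincareMonodromyOrders {V : Type} [Fintype V] (f : MvPolynomial V ℤ) : Prop :=
  ∀ N D : Polynomial ℂ, IsCoprime N D → (D : PowerSeries ℂ) * poincare p f = (N : PowerSeries ℂ) →
    ∀ T₀ : ℂ, ∀ b : Polynomial ℂ, b ≠ 0 → IsBFunction (map (Int.castRingHom ℂ) f) b →
      D.rootMultiplicity T₀ ≤ b.rootMultiplicity ((-Real.log ‖T₀‖ / Real.log p : ℝ) : ℂ)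

lemma coeff_poin {V : Type} [Fintype V] (g : MvPolynomial V ℤ) (m : ℕ) :
    PowerSeries.coeff m (poincare p g) = (cN p g m : ℂ) := by
  unfold poincare cN
  rw [PowerSeries.coeff_mk]
  push_cast
  rfl

/-- the poles have absolute value at least `1` -/
lemma one_le_norm {V : Type} [Fintype V] (f : MvPolynomial V ℤ) (N D : Polynomial ℂ)
    (hc : IsCoprime N D) (h : (D : PowerSeries ℂ) * poincare p f = (N : PowerSeries ℂ)) (T₀ : ℂ)
    (h0 : D.eval T₀ = 0) : 1 ≤ ‖T₀‖ := by
  by_contra hT
  push Not at hT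
  have h1 : HS (poincare p f) T₀ (∑' m : ℕ, (cN p f m : ℂ) * T₀ ^ m) := by
    unfold HS
    simp only [coeff_poin]
    exact (cN_summable p f T₀ hT).hasSum
  have h2 := h1.poly_mul D
  rw [h, h0, zero_mul] at h2
  have h3 : N.eval T₀ = 0 := HasSum.unique (HS.poly N T₀) h2
  obtain ⟨a, b, hab⟩ := hc
  have h4 := congrArg (Polynomial.eval T₀) hab
  rw [Polynomial.eval_add, Polynomial.eval_mul, Polynomial.eval_mul, h3, h0, Polynomial.eval_one]
    at h4
  simp at h4

lemma rescale_poly (q : ℂ) (D : Polynomial ℂ) :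
    PowerSeries.rescale q (D : PowerSeries ℂ) =
      ((D.comp (Polynomial.C q * Polynomial.X) : Polynomial ℂ) : PowerSeries ℂ) := by
  induction D using Polynomial.induction_on' with
  | add p q hp hq => rw [Polynomial.coe_add, map_add, hp, hq, Polynomial.add_comp,
      Polynomial.coe_add]
  | monomial n a =>
    rw [← Polynomial.C_mul_X_pow_eq_monomial]
    simp only [Polynomial.coe_mul, Polynomial.coe_pow, Polynomial.coe_C, Polynomial.coe_X, map_mul,
      map_pow, PowerSeries.rescale_X, Polynomial.mul_comp, Polynomial.C_comp, Polynomial.pow_comp,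
      Polynomial.X_comp]
    congr 1
    ext n
    rw [PowerSeries.coeff_rescale, PowerSeries.coeff_C]
    split_ifs with h
    · rw [h, pow_zero, one_mul]
    · rw [mul_zero]

end

/-- **Cubic universality for the Poincare series.** -/
theorem core_poincare (H : Parts) {V : Type} [Fintype V] (f : MvPolynomial V ℤ) :
    ∃ (W : Type) (_ : Fintype W) (E : Finset (Finset W)), (∀ e ∈ E, 1 ≤ e.card ∧ e.card ≤ 3) ∧
      ∀ (p : ℕ) [Fact p.Prime], (PoincareMonodromy p (hyp E) → PoincareMonodromy p f) ∧
        (PoincareMonodromyOrders p (hyp E) → PoincareMonodromyOrders p f) := by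
  classical
  obtain ⟨κ, hκ, Φ, E, hκ2, hE, hΦ⟩ := H.hyp (Option V) (cone f)
  refine ⟨Option V ⊕ (κ ⊕ κ), inferInstance, E, hE, ?_⟩
  intro p _
  have hp1 : (1 : ℝ) < (p : ℝ) := by exact_mod_cast (Fact.out : p.Prime).one_lt
  have hp0 : (p : ℂ) ≠ 0 := by exact_mod_cast (Fact.out : p.Prime).ne_zero
  have hlog : 0 < Real.log p := Real.log_pos hp1
  set m : ℕ := Fintype.card κ with hm
  -- Bernstein-Sato
  have hb : ∀ b : Polynomial ℂ, IsBFunction (map (Int.castRingHom ℂ) f) b →
      IsBFunction (map (Int.castRingHom ℂ) (hyp E))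
        ((Polynomial.X + 1) * b.comp (Polynomial.X + Polynomial.C (m : ℂ))) := by
    intro b hb
    have h4 := H.b2 V κ (map (Int.castRingHom ℂ) f) b hb
    rw [← map_cone, ← map_quad] at h4
    have h5 := H.b1 _ (bcE Φ) _ _ h4
    rwa [bcE_map, hΦ] at h5
  -- Poincare series
  have hP : poincare p (hyp E) = poincare p (quad (cone f) κ) := by
    rw [← hΦ]
    unfold poincare
    congr 1
    funext m
    rw [c1 p m _ Φ]
  have key : ∀ N D : Polynomial ℂ, IsCoprime N D →
      (D : PowerSeries ℂ) * poincare p f = (N : PowerSeries ℂ) → ∀ T₀ : ℂ, D.eval T₀ = 0 →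
      ∃ N' D' : Polynomial ℂ, IsCoprime N' D' ∧
        (D' : PowerSeries ℂ) * poincare p (hyp E) = (N' : PowerSeries ℂ) ∧
        D'.eval ((p : ℂ) ^ m * T₀) = 0 ∧
        D'.rootMultiplicity ((p : ℂ) ^ m * T₀) = D.rootMultiplicity T₀ := by
    intro N D hc hD T₀ h0
    have hT := one_le_norm p f N D hc hD T₀ h0
    set q : ℂ := ((p : ℂ) ^ m)⁻¹ with hq
    have hq0 : q ≠ 0 := inv_ne_zero (pow_ne_zero _ hp0)
    set T₁ : ℂ := (p : ℂ) ^ m * T₀ with hT₁
    have hqT : q * T₁ = T₀ := by
      rw [hq, hT₁, inv_mul_cancel_left₀ (pow_ne_zero _ hp0)]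
    have hN0 : N.eval T₀ ≠ 0 := by
      intro h3
      obtain ⟨a, b, hab⟩ := hc
      have h4 := congrArg (Polynomial.eval T₀) hab
      rw [Polynomial.eval_add, Polynomial.eval_mul, Polynomial.eval_mul, h3, h0,
        Polynomial.eval_one] at h4
      simp at h4
    have hDne : D ≠ 0 := by
      rintro rfl
      rw [Polynomial.coe_zero, zero_mul] at hD
      have : N = 0 := by
        rw [← Polynomial.coe_eq_zero_iff]
        exact hD.symm
      rw [this, Polynomial.eval_zero] at hN0
      exact hN0 rfl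
    set Dq : Polynomial ℂ := D.comp (Polynomial.C q * Polynomial.X) with hDq
    set Nq : Polynomial ℂ := N.comp (Polynomial.C q * Polynomial.X) with hNq
    have hDqe : ∀ T, Dq.eval T = D.eval (q * T) := fun T => by
      rw [hDq, Polynomial.eval_comp, Polynomial.eval_mul, Polynomial.eval_C, Polynomial.eval_X]
    have hNqe : ∀ T, Nq.eval T = N.eval (q * T) := fun T => by
      rw [hNq, Polynomial.eval_comp, Polynomial.eval_mul, Polynomial.eval_C, Polynomial.eval_X]
    have h1 : (Dq : PowerSeries ℂ) * PowerSeries.rescale q (poincare p f) = (Nq : PowerSeries ℂ) := by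
      rw [hDq, hNq, ← rescale_poly, ← rescale_poly, ← map_mul, hD]
    have h2 := poincare_rel p (κ := κ) H.c2 f
    rw [← hP] at h2
    set D2 : Polynomial ℂ := (Polynomial.C (p : ℂ) - Polynomial.X) * Dq with hD2
    set N2 : Polynomial ℂ := Dq + Polynomial.C ((p : ℂ) - 1) * Nq with hN2
    have h3 : (D2 : PowerSeries ℂ) * poincare p (hyp E) = (N2 : PowerSeries ℂ) := by
      rw [hD2, hN2, Polynomial.coe_mul, Polynomial.coe_sub, Polynomial.coe_add, Polynomial.coe_mul,
        Polynomial.coe_C, Polynomial.coe_X, Polynomial.coe_C, ← h1]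
      linear_combination (Dq : PowerSeries ℂ) * h2
    have hp1' : (p : ℂ) - 1 ≠ 0 := by
      intro h
      have h4 : (p : ℂ) = 1 := sub_eq_zero.1 h
      have h5 : (p : ℝ) = 1 := by exact_mod_cast h4
      linarith
    have hN2e : N2.eval T₁ ≠ 0 := by
      rw [hN2, Polynomial.eval_add, Polynomial.eval_mul, Polynomial.eval_C, hDqe, hNqe, hqT, h0,
        zero_add]
      exact mul_ne_zero hp1' hN0
    have hnorm : ‖T₁‖ = (p : ℝ) ^ m * ‖T₀‖ := by
      rw [hT₁, norm_mul, norm_pow, Complex.norm_natCast]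
    have hpT : (p : ℂ) - T₁ ≠ 0 := by
      intro h
      have h4 : T₁ = (p : ℂ) := (sub_eq_zero.1 h).symm
      have h5 : ‖T₁‖ = (p : ℝ) := by rw [h4, Complex.norm_natCast]
      have h6 : (p : ℝ) < (p : ℝ) ^ m := by
        calc (p : ℝ) = (p : ℝ) ^ 1 := (pow_one _).symm
          _ < (p : ℝ) ^ m := pow_lt_pow_right₀ hp1 hκ2
      have h7 : (p : ℝ) ^ m ≤ (p : ℝ) ^ m * ‖T₀‖ :=
        le_mul_of_one_le_right (pow_nonneg (by linarith) _) hT
      linarith
    have hD2e : D2.eval T₁ = 0 := by
      rw [hD2, Polynomial.eval_mul, hDqe, hqT, h0, mul_zero]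
    have hDqne : Dq ≠ 0 := by
      intro h
      apply hDne
      have h4 := congrArg (fun r : Polynomial ℂ =>
        r.comp (Polynomial.C q⁻¹ * Polynomial.X)) h
      simp only [hDq, Polynomial.comp_assoc, Polynomial.mul_comp, Polynomial.C_comp,
        Polynomial.X_comp, Polynomial.zero_comp] at h4
      rw [← mul_assoc, ← Polynomial.C_mul, mul_inv_cancel₀ hq0, Polynomial.C_1, one_mul,
        Polynomial.comp_X] at h4
      exact h4
    have hlin : (Polynomial.C (p : ℂ) - Polynomial.X : Polynomial ℂ) ≠ 0 := by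
      intro h
      have h4 := congrArg (Polynomial.eval T₁) h
      rw [Polynomial.eval_sub, Polynomial.eval_C, Polynomial.eval_X, Polynomial.eval_zero] at h4
      exact hpT h4
    have hD2ne : D2 ≠ 0 := mul_ne_zero hlin hDqne
    -- common divisors
    obtain ⟨g, N', D', hg0, hcop, hN', hD'⟩ : ∃ g N' D' : Polynomial ℂ, g ≠ 0 ∧ IsCoprime N' D' ∧
        N2 = g * N' ∧ D2 = g * D' := by
      have hg0 : EuclideanDomain.gcd N2 D2 ≠ 0 := fun h =>
        hD2ne (EuclideanDomain.gcd_eq_zero_iff.1 h).2
      obtain ⟨N', hN'⟩ := EuclideanDomain.gcd_dvd_left N2 D2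
      obtain ⟨D', hD'⟩ := EuclideanDomain.gcd_dvd_right N2 D2
      refine ⟨_, N', D', hg0, ?_, hN', hD'⟩
      have h4 := EuclideanDomain.gcd_eq_gcd_ab N2 D2
      refine ⟨EuclideanDomain.gcdA N2 D2, EuclideanDomain.gcdB N2 D2, ?_⟩
      apply mul_left_cancel₀ hg0
      rw [mul_one]
      calc EuclideanDomain.gcd N2 D2 * (EuclideanDomain.gcdA N2 D2 * N' +
            EuclideanDomain.gcdB N2 D2 * D') =
          (EuclideanDomain.gcd N2 D2 * N') * EuclideanDomain.gcdA N2 D2 +
            (EuclideanDomain.gcd N2 D2 * D') * EuclideanDomain.gcdB N2 D2 := by ring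
        _ = N2 * EuclideanDomain.gcdA N2 D2 + D2 * EuclideanDomain.gcdB N2 D2 := by
            rw [← hN', ← hD']
        _ = EuclideanDomain.gcd N2 D2 := h4.symm
    have hgc : (g : PowerSeries ℂ) ≠ 0 := by
      rw [Ne, Polynomial.coe_eq_zero_iff]
      exact hg0
    have hge : g.eval T₁ ≠ 0 := by
      intro h
      apply hN2e
      rw [hN', Polynomial.eval_mul, h, zero_mul]
    refine ⟨N', D', hcop, ?_, ?_, ?_⟩
    · apply mul_left_cancel₀ hgc
      rw [← mul_assoc, ← Polynomial.coe_mul, ← hD', h3, hN', Polynomial.coe_mul]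
    · have h4 := hD2e
      rw [hD', Polynomial.eval_mul] at h4
      exact (mul_eq_zero.1 h4).resolve_left hge
    · have h4 : D2.rootMultiplicity T₁ = D'.rootMultiplicity T₁ := by
        have h5 : g * D' ≠ 0 := by rw [← hD']; exact hD2ne
        rw [hD', Polynomial.rootMultiplicity_mul h5, Polynomial.rootMultiplicity_eq_zero hge,
          zero_add]
      have h5 : D2.rootMultiplicity T₁ = Dq.rootMultiplicity T₁ := by
        rw [hD2, Polynomial.rootMultiplicity_mul hD2ne, Polynomial.rootMultiplicity_eq_zero (by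
          rw [Polynomial.IsRoot.def, Polynomial.eval_sub, Polynomial.eval_C, Polynomial.eval_X]
          exact hpT), zero_add]
      rw [← h4, h5]
      -- scaling
      have h6 : (Polynomial.X - Polynomial.C T₀).comp (Polynomial.C q * Polynomial.X) =
          Polynomial.C q * (Polynomial.X - Polynomial.C T₁) := by
        rw [Polynomial.sub_comp, Polynomial.X_comp, Polynomial.C_comp, mul_sub, ← Polynomial.C_mul,
          hqT]
      obtain ⟨R, hR, hnd⟩ := Polynomial.exists_eq_pow_rootMultiplicity_mul_and_not_dvd D hDne T₀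
      have h7 : Dq = (Polynomial.X - Polynomial.C T₁) ^ D.rootMultiplicity T₀ *
          (Polynomial.C (q ^ D.rootMultiplicity T₀) * R.comp (Polynomial.C q * Polynomial.X)) := by
        rw [hDq]
        conv_lhs => rw [hR]
        rw [Polynomial.mul_comp, Polynomial.pow_comp, h6, mul_pow, ← Polynomial.C_pow]
        ring
      have h8 : ¬ (Polynomial.C (q ^ D.rootMultiplicity T₀) *
          R.comp (Polynomial.C q * Polynomial.X)).IsRoot T₁ := by
        rw [Polynomial.IsRoot.def, Polynomial.eval_mul, Polynomial.eval_C, Polynomial.eval_comp,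
          Polynomial.eval_mul, Polynomial.eval_C, Polynomial.eval_X, hqT]
        refine mul_ne_zero (pow_ne_zero _ hq0) fun h => hnd (Polynomial.dvd_iff_isRoot.2 h)
      have h9 : (Polynomial.X - Polynomial.C T₁) ^ D.rootMultiplicity T₀ *
          (Polynomial.C (q ^ D.rootMultiplicity T₀) * R.comp (Polynomial.C q * Polynomial.X)) ≠ 0 := by
        rw [← h7]
        exact hDqne
      rw [h7, Polynomial.rootMultiplicity_mul h9, Polynomial.rootMultiplicity_X_sub_C_pow,
        Polynomial.rootMultiplicity_eq_zero h8, add_zero]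
  have hlogT : ∀ T₀ : ℂ, 1 ≤ ‖T₀‖ →
      (((-Real.log ‖(p : ℂ) ^ m * T₀‖ / Real.log p : ℝ)) : ℂ) =
        ((-Real.log ‖T₀‖ / Real.log p : ℝ) : ℂ) - (m : ℂ) := by
    intro T₀ hT
    rw [norm_mul, norm_pow, Complex.norm_natCast, Real.log_mul (by positivity) (by linarith),
      Real.log_pow]
    have : -(↑m * Real.log ↑p + Real.log ‖T₀‖) / Real.log ↑p =
        -Real.log ‖T₀‖ / Real.log ↑p - (m : ℝ) := by
      field_simp
      ring
    rw [this]
    push_cast
    rfl
  have hne : ∀ T₀ : ℂ, 1 ≤ ‖T₀‖ →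
      ((-Real.log ‖T₀‖ / Real.log p : ℝ) : ℂ) - (m : ℂ) + 1 ≠ 0 := by
    intro T₀ hT h
    have h1 : -Real.log ‖T₀‖ / Real.log p - (m : ℝ) + 1 = 0 := by exact_mod_cast h
    have h2 : (2 : ℝ) ≤ (m : ℝ) := by exact_mod_cast hκ2
    have h3 : -Real.log ‖T₀‖ / Real.log p ≤ 0 := by
      apply div_nonpos_of_nonpos_of_nonneg _ hlog.le
      have := Real.log_nonneg hT
      linarith
    linarith
  constructor
  · intro hS N D hc hD T₀ h0 b hbf
    have hT := one_le_norm p f N D hc hD T₀ h0
    obtain ⟨N', D', h1, h2, h3, -⟩ := key N D hc hD T₀ h0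
    have h6 := hS N' D' h1 h2 _ h3 _ (hb b hbf)
    rw [hlogT T₀ hT, Polynomial.eval_mul, Polynomial.eval_comp, Polynomial.eval_add,
      Polynomial.eval_add, Polynomial.eval_X, Polynomial.eval_one, Polynomial.eval_C,
      sub_add_cancel] at h6
    exact (mul_eq_zero.1 h6).resolve_left (hne T₀ hT)
  · intro hS N D hc hD T₀ b hb0 hbf
    by_cases h0 : D.eval T₀ = 0
    · have hT := one_le_norm p f N D hc hD T₀ h0
      obtain ⟨N', D', h1, h2, h3, h4⟩ := key N D hc hD T₀ h0
      have hB0 : (Polynomial.X + 1) *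
          b.comp (Polynomial.X + Polynomial.C (m : ℂ)) ≠ 0 := by
        refine mul_ne_zero (fun h => ?_) (fun h => hb0 ?_)
        · have := congrArg (Polynomial.eval 0) h
          simp at this
        · have h3 := congrArg (fun q : Polynomial ℂ =>
            q.comp (Polynomial.X - Polynomial.C (m : ℂ))) h
          simp only [Polynomial.comp_assoc, Polynomial.add_comp, Polynomial.X_comp,
            Polynomial.C_comp, sub_add_cancel, Polynomial.comp_X, Polynomial.zero_comp] at h3
          exact h3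
      have h6 := hS N' D' h1 h2 ((p : ℂ) ^ m * T₀) _ hB0 (hb b hbf)
      rw [hlogT T₀ hT, rootMult_shift b hb0 _ _ (hne T₀ hT), sub_add_cancel, h4] at h6
      exact h6
    · rw [Polynomial.rootMultiplicity_eq_zero (p := D) h0]
      exact Nat.zero_le _

end Pool.Agent.N165.CU
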