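import Pool.Agent.N165.CU.Zeta

set_option autoImplicit false
set_option linter.unusedSectionVars false

/-! # The poles of `Z_f` and of `Z_F`, `F = t f(x) + ∑ u_k v_k` -/

namespace Pool.Agent.N165.CU

open MvPolynomial Pool.Agent.W427.SMC MeasureTheory Filter Topology

variable (p : ℕ) [Fact p.Prime]

lemma zeta_bound {V : Type} [Fintype V] (f : MvPolynomial V ℤ) (s : ℂ) (hs : 0 < s.re) :
    ‖igusaZeta p f s‖ ≤ 1 := by
  unfold igusaZeta
  letI : MeasurableSpace (V → ℤ_[p]) := borel _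
  haveI : BorelSpace (V → ℤ_[p]) := ⟨rfl⟩
  refine (norm_integral_le_of_norm_le_const (C := 1) (Eventually.of_forall fun x => ?_)).trans ?_
  · rcases eq_or_ne (aeval x f) 0 with h0 | h0
    · rw [h0, norm_zero, Complex.ofReal_zero, Complex.zero_cpow, norm_zero]
      · exact zero_le_one
      · intro h
        rw [h] at hs
        simp at hs
    · rw [Complex.norm_cpow_eq_rpow_re_of_pos (norm_pos_iff.2 h0)]
      exact Real.rpow_le_one (norm_nonneg _) (PadicInt.norm_le_one _) hs.le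
  · rw [one_mul, measureReal_def]
    have h1 : (Measure.addHaarMeasure (⊤ : TopologicalSpace.PositiveCompacts (V → ℤ_[p])))
        ((⊤ : TopologicalSpace.PositiveCompacts (V → ℤ_[p])) : Set (V → ℤ_[p])) = 1 :=
      Measure.addHaarMeasure_self
    have h2 : ((⊤ : TopologicalSpace.PositiveCompacts (V → ℤ_[p])) : Set (V → ℤ_[p])) =
        Set.univ := rfl
    rw [h2] at h1
    rw [h1, ENNReal.toReal_one]

lemma re_nonpos {V : Type} [Fintype V] (f : MvPolynomial V ℤ) (Z : ℂ → ℂ)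
    (hZp : ∀ s : ℂ, 0 < s.re → Z s = igusaZeta p f s) (s₀ : ℂ)
    (h : meromorphicOrderAt Z s₀ < 0) : s₀.re ≤ 0 := by
  by_contra hs
  push Not at hs
  have h1 := tendsto_cobounded_of_meromorphicOrderAt_neg h
  rw [← tendsto_norm_atTop_iff_cobounded] at h1
  have h2 : ∀ᶠ s in 𝓝[≠] s₀, 2 ≤ ‖Z s‖ := h1.eventually_ge_atTop 2
  have h3 : ∀ᶠ s in 𝓝[≠] s₀, 0 < s.re := by
    have : ∀ᶠ s : ℂ in 𝓝 s₀, 0 < s.re :=
      (isOpen_lt continuous_const Complex.continuous_re).mem_nhds hs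
    exact this.filter_mono nhdsWithin_le_nhds
  obtain ⟨s, h4, h5⟩ := (h2.and h3).exists
  have h6 := zeta_bound p f s h5
  rw [← hZp s h5] at h6
  linarith

lemma pT_analytic (c : ℂ) (x : ℂ) : AnalyticAt ℂ (fun s : ℂ => (p : ℂ) ^ (-(s + c))) x := by
  have hp0 : (p : ℂ) ≠ 0 := by exact_mod_cast (Fact.out : p.Prime).ne_zero
  have h : (fun s : ℂ => (p : ℂ) ^ (-(s + c))) =
      fun s : ℂ => Complex.exp (Complex.log p * (-(s + c))) := by
    funext s
    rw [Complex.cpow_def_of_ne_zero hp0]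
  rw [h]
  fun_prop

lemma norm_pTc (s : ℂ) (c : ℕ) : ‖(p : ℂ) ^ (-(s + (c : ℂ)))‖ = (p : ℝ) ^ (-(s.re + c)) := by
  rw [norm_pT]
  simp

variable {σ κ : Type} [Fintype σ] [Fintype κ]

/-- **Transfer of the poles.** -/
theorem pole_transfer (h2 : S_C2) (hz : S_Z) (hκ : 2 ≤ Fintype.card κ) (f : MvPolynomial σ ℤ)
    (Z : ℂ → ℂ) (hZ : MeromorphicOn Z Set.univ)
    (hZp : ∀ s : ℂ, 0 < s.re → Z s = igusaZeta p f s) :
    ∃ Z' : ℂ → ℂ, MeromorphicOn Z' Set.univ ∧
      (∀ s : ℂ, 0 < s.re → Z' s = igusaZeta p (quad (cone f) κ) s) ∧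
      ∀ s₀ : ℂ, meromorphicOrderAt Z s₀ < 0 → s₀.re ≤ 0 ∧
        meromorphicOrderAt Z' (s₀ - (Fintype.card κ : ℂ)) ≤ meromorphicOrderAt Z s₀ := by
  have hp0 : (p : ℂ) ≠ 0 := by exact_mod_cast (Fact.out : p.Prime).ne_zero
  have hp1 : (1 : ℝ) < (p : ℝ) := by exact_mod_cast (Fact.out : p.Prime).one_lt
  set m : ℕ := Fintype.card κ with hm
  set T : ℂ → ℂ := fun s => (p : ℂ) ^ (-(s + ((0 : ℕ) : ℂ))) with hT
  set T' : ℂ → ℂ := fun s => (p : ℂ) ^ (-(s + (m : ℂ))) with hT'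
  have hTan : ∀ x, AnalyticAt ℂ T x := fun x => pT_analytic p _ x
  have hTan' : ∀ x, AnalyticAt ℂ T' x := fun x => pT_analytic p _ x
  have hTs : ∀ s, T s = (p : ℂ) ^ (-s) := fun s => by
    rw [hT]
    simp
  set D : ℂ → ℂ := fun s => T s * ((p : ℂ) - T s) * (1 - T' s) with hD
  set C : ℂ → ℂ := fun s => ((p : ℂ) - 1) * ((1 - T s) * T' s) with hC
  set B : ℂ → ℂ := fun s => ((p : ℂ) - 1) * (T s - T' s) with hB
  have hDan : ∀ x, AnalyticAt ℂ D x := fun x =>
    ((hTan x).mul (analyticAt_const.sub (hTan x))).mul (analyticAt_const.sub (hTan' x))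
  have hCan : ∀ x, AnalyticAt ℂ C x := fun x =>
    analyticAt_const.mul ((analyticAt_const.sub (hTan x)).mul (hTan' x))
  have hBan : ∀ x, AnalyticAt ℂ B x := fun x => analyticAt_const.mul ((hTan x).sub (hTan' x))
  set N : ℂ → ℂ := (C * (Z ∘ (· + (m : ℂ)))) + B with hN
  have hZm : ∀ x, MeromorphicAt (Z ∘ (· + (m : ℂ))) x := fun x =>
    meromorphicAt_comp_add_const_iff_meromorphicAt.2 (hZ (x + m) (Set.mem_univ _))
  have hNm : ∀ x, MeromorphicAt N x := fun x =>
    ((hCan x).meromorphicAt.mul (hZm x)).add (hBan x).meromorphicAt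
  have hDpos : ∀ s : ℂ, 0 < s.re → D s ≠ 0 := by
    intro s hs
    have h1 : ‖T s‖ < 1 := by rw [hTs]; exact norm_pT_lt p s hs
    have h3 : ‖T' s‖ < 1 := norm_pT_lt p (s + m) (by
      have : (0 : ℝ) ≤ (m : ℝ) := Nat.cast_nonneg _
      rw [Complex.add_re, Complex.natCast_re]
      linarith)
    refine mul_ne_zero (mul_ne_zero ?_ ?_) ?_
    · rw [hTs]
      exact fun h => hp0 ((Complex.cpow_eq_zero_iff _ _).1 h).1
    · intro h
      have h4 : T s = (p : ℂ) := (sub_eq_zero.1 h).symm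
      rw [h4, Complex.norm_natCast] at h1
      linarith
    · intro h
      have h4 : T' s = 1 := (sub_eq_zero.1 h).symm
      rw [h4, norm_one] at h3
      exact lt_irrefl _ h3
  refine ⟨N / D, fun x _ => (hNm x).div (hDan x).meromorphicAt, fun s hs => ?_,
    fun s₀ hs₀ => ?_⟩
  · have h1 := zeta_rel p (κ := κ) h2 hz f s hs
    have hs' : 0 < (s + (m : ℂ)).re := by
      have : (0 : ℝ) ≤ (m : ℝ) := Nat.cast_nonneg _
      rw [Complex.add_re, Complex.natCast_re]
      linarith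
    show N s / D s = _
    rw [div_eq_iff (hDpos s hs)]
    have hNs : N s = C s * Z (s + m) + B s := rfl
    rw [hNs, hZp _ hs', hC, hB, hD]
    simp only [hTs]
    rw [hT']
    linear_combination -h1
  · have hre := re_nonpos p f Z hZp s₀ hs₀
    refine ⟨hre, ?_⟩
    set s₁ : ℂ := s₀ - (m : ℂ) with hs₁
    have hs10 : s₁ + (m : ℂ) = s₀ := sub_add_cancel _ _
    have hTn : (p : ℝ) < ‖T s₁‖ := by
      rw [hTs, norm_pT]
      have h3 : (1 : ℝ) < -s₁.re := by
        rw [hs₁, Complex.sub_re, Complex.natCast_re]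
        have : (2 : ℝ) ≤ (m : ℝ) := by exact_mod_cast hκ
        linarith
      calc (p : ℝ) = (p : ℝ) ^ (1 : ℝ) := (Real.rpow_one _).symm
        _ < (p : ℝ) ^ (-s₁.re) := Real.rpow_lt_rpow_of_exponent_lt hp1 h3
    have hT'0 : T' s₁ ≠ 0 := fun h => hp0 ((Complex.cpow_eq_zero_iff _ _).1 h).1
    have hC0 : C s₁ ≠ 0 := by
      refine mul_ne_zero ?_ (mul_ne_zero ?_ hT'0)
      · intro h
        have h4 : (p : ℂ) = 1 := sub_eq_zero.1 h
        have h5 : (p : ℝ) = 1 := by exact_mod_cast h4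
        linarith
      · intro h
        have h4 : T s₁ = 1 := (sub_eq_zero.1 h).symm
        rw [h4, norm_one] at hTn
        linarith
    have hord : meromorphicOrderAt N s₁ = meromorphicOrderAt Z s₀ := by
      have h3 : meromorphicOrderAt (C * (Z ∘ (· + (m : ℂ)))) s₁ = meromorphicOrderAt Z s₀ := by
        rw [meromorphicOrderAt_mul_of_ne_zero (hCan s₁) hC0,
          meromorphicOrderAt_comp_add_const_eq_meromorphicOrderAt, hs10]
      rw [hN, meromorphicOrderAt_add_eq_left_of_lt (hBan s₁).meromorphicAt, h3]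
      rw [h3]
      exact lt_of_lt_of_le hs₀ (hBan s₁).meromorphicOrderAt_nonneg
    -- `D` is not identically zero
    have hDne : ∀ᶠ s in 𝓝[≠] s₁, D s ≠ 0 := by
      rcases (hDan s₁).eventually_eq_zero_or_eventually_ne_zero with h | h
      · exfalso
        have h3 : AnalyticOnNhd ℂ D Set.univ := fun x _ => hDan x
        have h4 := h3.eqOn_zero_of_preconnected_of_eventuallyEq_zero isPreconnected_univ
          (Set.mem_univ s₁) h
        exact hDpos 1 (by simp) (h4 (Set.mem_univ 1))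
      · exact h
    have hmul : (D * (N / D)) =ᶠ[𝓝[≠] s₁] N := by
      filter_upwards [hDne] with s hs
      show D s * (N s / D s) = N s
      rw [mul_div_cancel₀ _ hs]
    have h5 := meromorphicOrderAt_congr hmul
    rw [meromorphicOrderAt_mul (hDan s₁).meromorphicAt ((hNm s₁).div (hDan s₁).meromorphicAt),
      hord] at h5
    rw [← h5]
    have h6 : 0 ≤ meromorphicOrderAt D s₁ := (hDan s₁).meromorphicOrderAt_nonneg
    calc meromorphicOrderAt (N / D) s₁ = 0 + meromorphicOrderAt (N / D) s₁ := (zero_add _).symm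
      _ ≤ meromorphicOrderAt D s₁ + meromorphicOrderAt (N / D) s₁ := by gcongr

end Pool.Agent.N165.CU
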