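import Pool.Agent.N165.CU.Defs

set_option autoImplicit false

/-! # Statement of the hypergraph normal form -/

namespace Pool.Agent.N165.CU

open MvPolynomial

/-- The polynomial `∑_{e ∈ H} ∏_{i ∈ e} x_i` of a finite hypergraph `H` on the vertices `V`. -/
noncomputable def hyp {V : Type} (H : Finset (Finset V)) : MvPolynomial V ℤ :=
  ∑ e ∈ H, ∏ i ∈ e, X i

/-- HYP -/
def S_Hyp : Prop := ∀ (ρ : Type) [Fintype ρ] (h : MvPolynomial ρ ℤ),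
  ∃ (κ : Type) (_ : Fintype κ) (Φ : MvPolynomial (ρ ⊕ (κ ⊕ κ)) ℤ ≃ₐ[ℤ]
    MvPolynomial (ρ ⊕ (κ ⊕ κ)) ℤ) (H : Finset (Finset (ρ ⊕ (κ ⊕ κ)))),
    2 ≤ Fintype.card κ ∧ (∀ e ∈ H, 1 ≤ e.card ∧ e.card ≤ 3) ∧ Φ (quad h κ) = hyp H

end Pool.Agent.N165.CU
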