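import Pool.Agent.N165.CU.Pole
import Pool.Agent.N165.CU.C1
import Pool.Agent.N165.CU.B2
import Pool.Agent.N165.CU.StmH

set_option autoImplicit false
set_option linter.unusedSectionVars false

/-! # Rational coefficients, and the strong monodromy conjecture -/

namespace Pool.Agent.N165.CU

open MvPolynomial Pool.Agent.W427.SMC MeasureTheory Filter Topology Pool.Agent.H628R4.TP

/-- The `p`-adic zeta function `∫_{ℤ_p ^ V} |f(x)|^s dx` of a polynomial with rational coefficients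
(`dx` is the Haar measure of total mass `1`). -/
noncomputable def padicZeta (p : ℕ) [Fact p.Prime] {V : Type} [Fintype V] (f : MvPolynomial V ℚ)
    (s : ℂ) : ℂ :=
  letI : MeasurableSpace (V → ℤ_[p]) := borel _
  haveI : BorelSpace (V → ℤ_[p]) := ⟨rfl⟩
  ∫ x : V → ℤ_[p], ((‖aeval (fun i => (x i : ℚ_[p])) f‖ : ℝ) : ℂ) ^ s
    ∂(Measure.addHaarMeasure (⊤ : TopologicalSpace.PositiveCompacts (V → ℤ_[p])))

/-- **The strong monodromy conjecture for `f` and `p`**: let `Z` be the meromorphic continuation of the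
zeta function of `f`; then the real part of every pole `s₀` of `Z` is a root of every `b` which satisfies
a functional equation `b(s) f ^ s = P(s) f ^ (s + 1)`, in particular of `b_f`. -/
def StrongMonodromy (p : ℕ) [Fact p.Prime] {V : Type} [Fintype V] (f : MvPolynomial V ℚ) : Prop :=
  ∀ Z : ℂ → ℂ, MeromorphicOn Z Set.univ → (∀ s : ℂ, 0 < s.re → Z s = padicZeta p f s) →
    ∀ s₀ : ℂ, meromorphicOrderAt Z s₀ < 0 → ∀ b : Polynomial ℂ,
      IsBFunction (map (algebraMap ℚ ℂ) f) b → b.eval (s₀.re : ℂ) = 0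

/-- **The strong monodromy conjecture with orders for `f` and `p`**: the order of every pole `s₀` is at
most the multiplicity of its real part as a root of `b`. -/
def StrongMonodromyOrders (p : ℕ) [Fact p.Prime] {V : Type} [Fintype V] (f : MvPolynomial V ℚ) :
    Prop :=
  ∀ Z : ℂ → ℂ, MeromorphicOn Z Set.univ → (∀ s : ℂ, 0 < s.re → Z s = padicZeta p f s) →
    ∀ s₀ : ℂ, ∀ b : Polynomial ℂ, b ≠ 0 → IsBFunction (map (algebraMap ℚ ℂ) f) b →
      ((-(b.rootMultiplicity (s₀.re : ℂ) : ℤ) : ℤ) : WithTop ℤ) ≤ meromorphicOrderAt Z s₀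

/-- The polynomial `∑_{e ∈ H} ∏_{i ∈ e} x_i` of a finite hypergraph `H` on the vertices `V`. -/
noncomputable def hypergraphPoly {V : Type} (H : Finset (Finset V)) : MvPolynomial V ℚ :=
  ∑ e ∈ H, ∏ i ∈ e, X i

lemma map_hyp {V : Type} (H : Finset (Finset V)) :
    map (Int.castRingHom ℚ) (hyp H) = hypergraphPoly H := by
  unfold hyp hypergraphPoly
  rw [map_sum]
  refine Finset.sum_congr rfl fun e _ => ?_
  rw [map_prod]
  refine Finset.prod_congr rfl fun i _ => ?_
  rw [map_X]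

lemma exists_int {V : Type} (f : MvPolynomial V ℚ) : ∃ (N : ℕ) (g : MvPolynomial V ℤ), N ≠ 0 ∧
    map (Int.castRingHom ℚ) g = C (N : ℚ) * f := by
  induction f using MvPolynomial.induction_on with
  | C a =>
    refine ⟨a.den, C a.num, a.den_ne_zero, ?_⟩
    rw [map_C, ← map_mul]
    congr 1
    rw [eq_intCast, Rat.den_mul_eq_num]
  | add f f' h h' =>
    obtain ⟨N, g, hN, hg⟩ := h
    obtain ⟨N', g', hN', hg'⟩ := h'
    refine ⟨N * N', C (N' : ℤ) * g + C (N : ℤ) * g', mul_ne_zero hN hN', ?_⟩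
    rw [map_add, map_mul, map_mul, map_C, map_C, hg, hg', Nat.cast_mul, C_mul]
    simp only [eq_intCast, Int.cast_natCast]
    ring
  | mul_X f i h =>
    obtain ⟨N, g, hN, hg⟩ := h
    refine ⟨N, g * X i, hN, ?_⟩
    rw [map_mul, map_X, hg]
    ring

variable (p : ℕ) [Fact p.Prime]

lemma norm_aeval {V : Type} [Fintype V] (f : MvPolynomial V ℚ) (N : ℕ) (g : MvPolynomial V ℤ)
    (hg : map (Int.castRingHom ℚ) g = C (N : ℚ) * f) (x : V → ℤ_[p]) :
    ‖aeval x g‖ = ‖((N : ℚ_[p]))‖ * ‖aeval (fun i => (x i : ℚ_[p])) f‖ := by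
  have h1 : aeval (fun i => (x i : ℚ_[p])) (map (Int.castRingHom ℚ) g) =
      ((aeval x g : ℤ_[p]) : ℚ_[p]) := by
    rw [aeval_def, eval₂_map]
    have h2 := (MvPolynomial.eval₂_comp_left (PadicInt.Coe.ringHom (p := p))
      (algebraMap ℤ ℤ_[p]) x g)
    have h3 : ((aeval x g : ℤ_[p]) : ℚ_[p]) = PadicInt.Coe.ringHom (eval₂ (algebraMap ℤ ℤ_[p]) x g) :=
      rfl
    rw [h3, h2]
    congr 1
  have h4 : ‖aeval x g‖ = ‖((aeval x g : ℤ_[p]) : ℚ_[p])‖ := rfl
  rw [h4, ← h1, hg, map_mul, norm_mul]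
  congr 2
  rw [algHom_C, eq_ratCast, Rat.cast_natCast]

lemma zeta_scale {V : Type} [Fintype V] (f : MvPolynomial V ℚ) (N : ℕ) (g : MvPolynomial V ℤ)
    (hg : map (Int.castRingHom ℚ) g = C (N : ℚ) * f) (s : ℂ) :
    igusaZeta p g s = ((‖((N : ℚ_[p]))‖ : ℝ) : ℂ) ^ s * padicZeta p f s := by
  unfold igusaZeta padicZeta
  rw [← integral_const_mul]
  congr 1
  funext x
  rw [norm_aeval p f N g hg x, Complex.ofReal_mul,
    Complex.mul_cpow_ofReal_nonneg (norm_nonneg _) (norm_nonneg _)]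

lemma zeta_int {V : Type} [Fintype V] (g : MvPolynomial V ℤ) (s : ℂ) :
    padicZeta p (map (Int.castRingHom ℚ) g) s = igusaZeta p g s := by
  rw [zeta_scale p (map (Int.castRingHom ℚ) g) 1 g (by simp) s]
  simp

lemma bfun_scale {V : Type} (f : MvPolynomial V ℂ) (c : ℂ) (hc : c ≠ 0) (b : Polynomial ℂ)
    (h : IsBFunction f b) : IsBFunction (C c * f) b := by
  obtain ⟨P, hP⟩ := h
  refine ⟨P.mapRange (fun Q => c⁻¹ • Q) (smul_zero _), fun s => ?_⟩
  rw [Finsupp.sum_mapRange_index (by simp), mul_pow, ← mul_assoc, mul_comm (C _) (C c ^ s),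
    mul_assoc, hP s, Finsupp.sum, Finsupp.sum, Finset.mul_sum]
  refine Finset.sum_congr rfl fun m _ => ?_
  have e1 : (C c * f) ^ (s + 1) = c ^ (s + 1) • f ^ (s + 1) := by
    rw [mul_pow, ← C_pow, smul_eq_C_mul]
  rw [e1, Subalgebra.coe_smul, LinearMap.smul_apply, map_smul, ← C_pow, ← smul_eq_C_mul,
    smul_smul, smul_smul, smul_smul]
  congr 1
  rw [pow_succ]
  field_simp

/-- the zeta function of `Φ(g)` -/
lemma zeta_auto (hz : S_Z) {τ : Type} [Fintype τ] (Φ : MvPolynomial τ ℤ ≃ₐ[ℤ] MvPolynomial τ ℤ)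
    (g : MvPolynomial τ ℤ) (s : ℂ) (hs : 0 < s.re) :
    igusaZeta p (Φ g) s = igusaZeta p g s := by
  have hp0 : (p : ℂ) ≠ 0 := by exact_mod_cast (Fact.out : p.Prime).ne_zero
  have h1 := hz p τ g s hs
  have h2 := hz p τ (Φ g) s hs
  have h3 : ∀ m, cN p (Φ g) m = cN p g m := fun m => by
    unfold cN
    rw [c1 p m τ Φ g]
  simp only [h3] at h2
  rw [h1] at h2
  have hT : (p : ℂ) ^ (-s) ≠ 0 := fun h => hp0 ((Complex.cpow_eq_zero_iff _ _).1 h).1
  exact (mul_left_cancel₀ hT (sub_right_injective h2)).symm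

lemma rootMult_shift (b : Polynomial ℂ) (hb : b ≠ 0) (m : ℕ) (a : ℂ) (ha : a + 1 ≠ 0) :
    ((Polynomial.X + 1) * b.comp (Polynomial.X + Polynomial.C (m : ℂ))).rootMultiplicity a =
      b.rootMultiplicity (a + m) := by
  have h1 : (Polynomial.X + 1 : Polynomial ℂ) ≠ 0 := by
    intro h
    have := congrArg (Polynomial.eval 0) h
    simp at this
  have h2 : b.comp (Polynomial.X + Polynomial.C (m : ℂ)) ≠ 0 := by
    intro h
    apply hb
    have h3 := congrArg (fun q : Polynomial ℂ => q.comp (Polynomial.X - Polynomial.C (m : ℂ))) h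
    simp only [Polynomial.comp_assoc, Polynomial.add_comp, Polynomial.X_comp, Polynomial.C_comp,
      sub_add_cancel, Polynomial.comp_X, Polynomial.zero_comp] at h3
    exact h3
  rw [Polynomial.rootMultiplicity_mul (mul_ne_zero h1 h2),
    Polynomial.rootMultiplicity_eq_zero (p := Polynomial.X + 1) (by
      rw [Polynomial.IsRoot.def, Polynomial.eval_add, Polynomial.eval_X, Polynomial.eval_one]
      exact ha), zero_add, Polynomial.rootMultiplicity_eq_rootMultiplicity (t := a),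
    Polynomial.rootMultiplicity_eq_rootMultiplicity (p := b) (t := a + m), Polynomial.comp_assoc]
  congr 2
  simp only [Polynomial.add_comp, Polynomial.X_comp, Polynomial.C_comp, map_add]
  ring

/-- The statements of the parts of the project. -/
structure Parts : Prop where
  hyp : S_Hyp
  b1 : S_B1
  b2 : S_B2
  c2 : S_C2
  z : S_Z

/-- **Cubic universality.** -/
theorem core (H : Parts) {V : Type} [Fintype V] (f : MvPolynomial V ℚ) :
    ∃ (W : Type) (_ : Fintype W) (E : Finset (Finset W)), (∀ e ∈ E, 1 ≤ e.card ∧ e.card ≤ 3) ∧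
      ∀ (p : ℕ) [Fact p.Prime], (StrongMonodromy p (hypergraphPoly E) → StrongMonodromy p f) ∧
        (StrongMonodromyOrders p (hypergraphPoly E) → StrongMonodromyOrders p f) := by
  classical
  obtain ⟨N, g, hN, hg⟩ := exists_int f
  obtain ⟨κ, hκ, Φ, E, hκ2, hE, hΦ⟩ := H.hyp (Option V) (cone g)
  refine ⟨Option V ⊕ (κ ⊕ κ), inferInstance, E, hE, ?_⟩
  intro p _
  have hp0 : (p : ℂ) ≠ 0 := by exact_mod_cast (Fact.out : p.Prime).ne_zero
  -- Bernstein-Sato
  have hb : ∀ b : Polynomial ℂ, IsBFunction (map (algebraMap ℚ ℂ) f) b →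
      IsBFunction (map (algebraMap ℚ ℂ) (hypergraphPoly E))
        ((Polynomial.X + 1) * b.comp (Polynomial.X + Polynomial.C (Fintype.card κ : ℂ))) := by
    intro b hb
    have hNC : ((N : ℚ) : ℂ) ≠ 0 := by exact_mod_cast hN
    have h1 := bfun_scale _ ((N : ℚ) : ℂ) hNC b hb
    have h2 : C ((N : ℚ) : ℂ) * map (algebraMap ℚ ℂ) f = map (Int.castRingHom ℂ) g := by
      have h3 : map (algebraMap ℚ ℂ) (map (Int.castRingHom ℚ) g) = map (Int.castRingHom ℂ) g := by
        rw [MvPolynomial.map_map]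
        congr 1
      rw [← h3, hg, map_mul, map_C]
      rfl
    rw [h2] at h1
    have h4 := H.b2 V κ (map (Int.castRingHom ℂ) g) b h1
    rw [← map_cone, ← map_quad] at h4
    have h5 := H.b1 _ (bcE Φ) _ _ h4
    rw [bcE_map, hΦ] at h5
    have h6 : map (algebraMap ℚ ℂ) (hypergraphPoly E) = map (Int.castRingHom ℂ) (hyp E) := by
      rw [← map_hyp, MvPolynomial.map_map]
      congr 1
    rw [h6]
    exact h5
  -- zeta functions
  have hzeta : ∀ (Z : ℂ → ℂ), MeromorphicOn Z Set.univ →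
      (∀ s : ℂ, 0 < s.re → Z s = padicZeta p f s) → ∃ Z' : ℂ → ℂ, MeromorphicOn Z' Set.univ ∧
      (∀ s : ℂ, 0 < s.re → Z' s = padicZeta p (hypergraphPoly E) s) ∧
      ∀ s₀ : ℂ, meromorphicOrderAt Z s₀ < 0 → s₀.re ≤ 0 ∧
        meromorphicOrderAt Z' (s₀ - (Fintype.card κ : ℂ)) ≤ meromorphicOrderAt Z s₀ := by
    intro Z hZ hZp
    set c : ℂ := ((‖((N : ℚ_[p]))‖ : ℝ) : ℂ) with hc
    have hc0 : c ≠ 0 := by
      rw [hc, Ne, Complex.ofReal_eq_zero, norm_eq_zero]
      exact_mod_cast hN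
    have hcan : ∀ x, AnalyticAt ℂ (fun s : ℂ => c ^ s) x := by
      intro x
      have h : (fun s : ℂ => c ^ s) = fun s : ℂ => Complex.exp (Complex.log c * s) := by
        funext s
        rw [Complex.cpow_def_of_ne_zero hc0]
      rw [h]
      fun_prop
    have hcne : ∀ x : ℂ, c ^ x ≠ 0 := fun x h => hc0 ((Complex.cpow_eq_zero_iff _ _).1 h).1
    obtain ⟨Z', h1, h2, h3⟩ := pole_transfer p (κ := κ) H.c2 H.z hκ2 g ((fun s : ℂ => c ^ s) * Z)
      (fun x hx => (hcan x).meromorphicAt.mul (hZ x hx)) (fun s hs => by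
        rw [zeta_scale p f N g hg s, ← hZp s hs]
        rfl)
    refine ⟨Z', h1, fun s hs => ?_, fun s₀ hs₀ => ?_⟩
    · rw [h2 s hs, ← map_hyp, zeta_int, ← hΦ, zeta_auto p H.z Φ _ s hs]
    · have h4 : meromorphicOrderAt ((fun s : ℂ => c ^ s) * Z) s₀ = meromorphicOrderAt Z s₀ :=
        meromorphicOrderAt_mul_of_ne_zero (hcan s₀) (hcne s₀)
      have h5 := h3 s₀ (by rw [h4]; exact hs₀)
      rwa [h4] at h5
  have hcast : ∀ s₀ : ℂ, (((s₀ - (Fintype.card κ : ℂ)).re : ℝ) : ℂ) =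
      (s₀.re : ℂ) - (Fintype.card κ : ℂ) := by
    intro s₀
    rw [Complex.sub_re, Complex.natCast_re]
    push_cast
    rfl
  have hne : ∀ s₀ : ℂ, s₀.re ≤ 0 → (s₀.re : ℂ) - (Fintype.card κ : ℂ) + 1 ≠ 0 := by
    intro s₀ hs₀ h
    have h1 : s₀.re - (Fintype.card κ : ℝ) + 1 = 0 := by exact_mod_cast h
    have h2 : (2 : ℝ) ≤ (Fintype.card κ : ℝ) := by exact_mod_cast hκ2
    linarith
  constructor
  · intro hS Z hZ hZp s₀ hs₀ b hbf
    obtain ⟨Z', h1, h2, h3⟩ := hzeta Z hZ hZp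
    obtain ⟨h4, h5⟩ := h3 s₀ hs₀
    have h6 := hS Z' h1 h2 _ (lt_of_le_of_lt h5 hs₀) _ (hb b hbf)
    rw [hcast, Polynomial.eval_mul, Polynomial.eval_comp, Polynomial.eval_add, Polynomial.eval_add,
      Polynomial.eval_X, Polynomial.eval_one, Polynomial.eval_C, sub_add_cancel] at h6
    exact (mul_eq_zero.1 h6).resolve_left (hne s₀ h4)
  · intro hS Z hZ hZp s₀ b hb0 hbf
    by_cases hs₀ : meromorphicOrderAt Z s₀ < 0
    · obtain ⟨Z', h1, h2, h3⟩ := hzeta Z hZ hZp
      obtain ⟨h4, h5⟩ := h3 s₀ hs₀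
      have hB0 : (Polynomial.X + 1) *
          b.comp (Polynomial.X + Polynomial.C (Fintype.card κ : ℂ)) ≠ 0 := by
        refine mul_ne_zero (fun h => ?_) (fun h => hb0 ?_)
        · have := congrArg (Polynomial.eval 0) h
          simp at this
        · have h3 := congrArg (fun q : Polynomial ℂ =>
            q.comp (Polynomial.X - Polynomial.C (Fintype.card κ : ℂ))) h
          simp only [Polynomial.comp_assoc, Polynomial.add_comp, Polynomial.X_comp,
            Polynomial.C_comp, sub_add_cancel, Polynomial.comp_X, Polynomial.zero_comp] at h3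
          exact h3
      have h6 := hS Z' h1 h2 (s₀ - (Fintype.card κ : ℂ)) _ hB0 (hb b hbf)
      rw [hcast, rootMult_shift b hb0 _ _ (hne s₀ h4), sub_add_cancel] at h6
      exact h6.trans h5
    · push Not at hs₀
      refine le_trans ?_ hs₀
      have : -(b.rootMultiplicity (s₀.re : ℂ) : ℤ) ≤ 0 := by omega
      exact_mod_cast this

end Pool.Agent.N165.CU
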