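import Pool.Agent.N165.CU.Defs

set_option autoImplicit false

/-! # Statements of the parts -/

namespace Pool.Agent.N165.CU

open MvPolynomial Pool.Agent.W427.SMC Pool.Agent.H628R4.TP

/-- ALG -/
def S_Alg : Prop := ∀ (R : Type) [CommRing R] (ρ : Type) [Fintype ρ] (h : MvPolynomial ρ R),
  ∃ (κ : Type) (_ : Fintype κ) (Φ : MvPolynomial (ρ ⊕ (κ ⊕ κ)) R ≃ₐ[R]
    MvPolynomial (ρ ⊕ (κ ⊕ κ)) R), 2 ≤ Fintype.card κ ∧ (Φ (quad h κ)).totalDegree ≤ 3

/-- B1: Bernstein-Sato polynomials are invariant under algebra automorphisms -/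
def S_B1 : Prop := ∀ (τ : Type) [Finite τ] (Φ : MvPolynomial τ ℂ ≃ₐ[ℂ] MvPolynomial τ ℂ)
  (g : MvPolynomial τ ℂ) (b : Polynomial ℂ), IsBFunction g b → IsBFunction (Φ g) b

/-- B2: the functional equation of `t f(x) + ∑ u_k v_k` -/
def S_B2 : Prop := ∀ (σ κ : Type) [Finite σ] [Fintype κ] (f : MvPolynomial σ ℂ)
  (b : Polynomial ℂ), IsBFunction f b → IsBFunction (quad (cone f) κ)
    ((Polynomial.X + 1) * b.comp (Polynomial.X + Polynomial.C (Fintype.card κ : ℂ)))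

/-- C1: numbers of solutions are invariant under algebra automorphisms -/
def S_C1 : Prop := ∀ (p m : ℕ) (τ : Type) (Φ : MvPolynomial τ ℤ ≃ₐ[ℤ] MvPolynomial τ ℤ)
  (g : MvPolynomial τ ℤ), solCount p m (Φ g) = solCount p m g

/-- C2: the recursion for the numbers of solutions (`N` variables, `N = |σ| + 1 + 2 |κ|`) -/
def S_C2 : Prop := ∀ (p : ℕ) [Fact p.Prime] (σ κ : Type) [Fintype σ] [Fintype κ]
  (f : MvPolynomial σ ℤ) (e : ℕ),
  p * solCount p (e + 1) (quad (cone f) κ) =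
    p ^ (Fintype.card σ + 1 + 2 * Fintype.card κ) * solCount p e (quad (cone f) κ) +
    (p - 1) * p ^ ((e + 1) * (Fintype.card κ + 1)) * solCount p (e + 1) f

end Pool.Agent.N165.CU
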