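import Pool.Agent.W427.SMC.Poin2
import Pool.Agent.N165.CU.Defs

set_option autoImplicit false

/-! # Statement of the part on the zeta function -/

namespace Pool.Agent.N165.CU

open MvPolynomial Pool.Agent.W427.SMC

/-- Z: the zeta function and the Poincare series, for complex `s` -/
def S_Z : Prop := ∀ (p : ℕ) [Fact p.Prime] (V : Type) [Fintype V] (f : MvPolynomial V ℤ) (s : ℂ),
  0 < s.re → (1 - (p : ℂ) ^ (-s)) * ∑' m : ℕ, (cN p f m : ℂ) * ((p : ℂ) ^ (-s)) ^ m =
    1 - (p : ℂ) ^ (-s) * igusaZeta p f s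

end Pool.Agent.N165.CU
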