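import Pool.Agent.N165.CU.StmZ
import Pool.Agent.N165.CU.Stm

set_option autoImplicit false
set_option linter.unusedSectionVars false

/-! # The zeta function and the Poincare series of `t f(x) + ∑ u_k v_k` -/

namespace Pool.Agent.N165.CU

open MvPolynomial Pool.Agent.W427.SMC

section

variable (p : ℕ) [Fact p.Prime] {σ κ : Type} [Fintype σ] [Fintype κ]

lemma p_ne : (p : ℝ) ≠ 0 := by exact_mod_cast (Fact.out : p.Prime).ne_zero

/-- the recursion for the normalised numbers of solutions -/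
lemma cN_rec (h2 : S_C2) (f : MvPolynomial σ ℤ) (e : ℕ) :
    (p : ℝ) * cN p (quad (cone f) κ) (e + 1) - cN p (quad (cone f) κ) e =
      ((p : ℝ) - 1) * ((((p : ℝ) ^ Fintype.card κ)⁻¹) ^ (e + 1) * cN p f (e + 1)) := by
  have h := h2 p σ κ f e
  have hp := p_ne p
  have hp1 : 1 ≤ p := (Fact.out : p.Prime).one_lt.le
  have h' : (p : ℝ) * (solCount p (e + 1) (quad (cone f) κ) : ℝ) =
      (p : ℝ) ^ (Fintype.card σ + 1 + 2 * Fintype.card κ) * (solCount p e (quad (cone f) κ) : ℝ) +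
      ((p : ℝ) - 1) * (p : ℝ) ^ ((e + 1) * (Fintype.card κ + 1)) * (solCount p (e + 1) f : ℝ) := by
    have := congrArg (fun n : ℕ => (n : ℝ)) h
    push_cast [Nat.cast_sub hp1] at this
    exact this
  have hc : Fintype.card (Option σ ⊕ (κ ⊕ κ)) = Fintype.card σ + 1 + 2 * Fintype.card κ := by
    rw [Fintype.card_sum, Fintype.card_sum, Fintype.card_option]
    ring
  unfold cN
  rw [hc]
  set a := Fintype.card σ
  set k := Fintype.card κ
  set x := (solCount p (e + 1) (quad (cone f) κ) : ℝ)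
  set y := (solCount p e (quad (cone f) κ) : ℝ)
  set z := (solCount p (e + 1) f : ℝ)
  have e1 : (((p : ℝ) ^ (a + 1 + 2 * k))⁻¹) ^ (e + 1) ≠ 0 :=
    pow_ne_zero _ (inv_ne_zero (pow_ne_zero _ hp))
  have e2 : (((p : ℝ) ^ (a + 1 + 2 * k))⁻¹) ^ e =
      (p : ℝ) ^ (a + 1 + 2 * k) * (((p : ℝ) ^ (a + 1 + 2 * k))⁻¹) ^ (e + 1) := by
    rw [pow_succ]
    field_simp
  have e3 : (((p : ℝ) ^ k)⁻¹) ^ (e + 1) * (((p : ℝ) ^ a)⁻¹) ^ (e + 1) =
      (p : ℝ) ^ ((e + 1) * (k + 1)) * (((p : ℝ) ^ (a + 1 + 2 * k))⁻¹) ^ (e + 1) := by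
    rw [← mul_pow, mul_comm (e + 1) (k + 1), pow_mul, ← mul_pow]
    congr 1
    rw [← mul_inv, ← pow_add]
    have : (p : ℝ) ^ (a + 1 + 2 * k) = (p : ℝ) ^ (k + 1) * (p : ℝ) ^ (k + a) := by
      rw [← pow_add]; congr 1; ring
    rw [this]
    field_simp
  have e4 : ((p : ℝ) - 1) * ((((p : ℝ) ^ k)⁻¹) ^ (e + 1) * (z * (((p : ℝ) ^ a)⁻¹) ^ (e + 1))) =
      ((p : ℝ) - 1) * z * ((p : ℝ) ^ ((e + 1) * (k + 1)) *
        (((p : ℝ) ^ (a + 1 + 2 * k))⁻¹) ^ (e + 1)) := by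
    rw [← e3]; ring
  rw [e4, e2]
  linear_combination (((p : ℝ) ^ (a + 1 + 2 * k))⁻¹) ^ (e + 1) * h'

lemma cN_summable {V : Type} [Fintype V] (g : MvPolynomial V ℤ) (T : ℂ) (hT : ‖T‖ < 1) :
    Summable fun m : ℕ => (cN p g m : ℂ) * T ^ m := by
  refine Summable.of_norm_bounded (g := fun m : ℕ => ‖T‖ ^ m)
    (summable_geometric_of_lt_one (norm_nonneg _) hT) fun m => ?_
  rw [norm_mul, norm_pow, Complex.norm_real, Real.norm_eq_abs, abs_of_nonneg (cN_nonneg p g m)]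
  have := mul_le_mul_of_nonneg_right (cN_le_one p g m) (pow_nonneg (norm_nonneg T) m)
  rwa [one_mul] at this

/-- the generating functions -/
lemma gen_rel (h2 : S_C2) (f : MvPolynomial σ ℤ) (T : ℂ) (hT : ‖T‖ < 1) :
    ((p : ℂ) - T) * ∑' m : ℕ, (cN p (quad (cone f) κ) m : ℂ) * T ^ m =
      1 + ((p : ℂ) - 1) * ∑' m : ℕ, (cN p f m : ℂ) *
        (((p : ℂ) ^ Fintype.card κ)⁻¹ * T) ^ m := by
  have hp : 1 ≤ (p : ℝ) := by exact_mod_cast (Fact.out : p.Prime).one_lt.le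
  have hq : ‖((p : ℂ) ^ Fintype.card κ)⁻¹‖ ≤ 1 := by
    rw [norm_inv, norm_pow, Complex.norm_natCast]
    exact inv_le_one_of_one_le₀ (one_le_pow₀ hp)
  have hT' : ‖((p : ℂ) ^ Fintype.card κ)⁻¹ * T‖ < 1 := by
    rw [norm_mul]
    exact lt_of_le_of_lt (mul_le_of_le_one_left (norm_nonneg _) hq) hT
  set q : ℂ := ((p : ℂ) ^ Fintype.card κ)⁻¹ with hqd
  have hW := cN_summable p (quad (cone f) κ) T hT
  have hV := cN_summable p f (q * T) hT'
  have hW1 := (summable_nat_add_iff 1).2 hW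
  have hV1 := (summable_nat_add_iff 1).2 hV
  rw [hV.tsum_eq_zero_add, cN_zero]
  have h1 : ∀ m : ℕ, (p : ℂ) * ((cN p (quad (cone f) κ) (m + 1) : ℂ) * T ^ (m + 1)) -
      T * ((cN p (quad (cone f) κ) m : ℂ) * T ^ m) =
      ((p : ℂ) - 1) * ((cN p f (m + 1) : ℂ) * (q * T) ^ (m + 1)) := by
    intro m
    have h := congrArg (fun x : ℝ => (x : ℂ)) (cN_rec p (κ := κ) h2 f m)
    push_cast at h
    rw [mul_pow]
    linear_combination T ^ (m + 1) * h
  have h3 : ∑' m : ℕ, ((p : ℂ) * ((cN p (quad (cone f) κ) (m + 1) : ℂ) * T ^ (m + 1)) -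
      T * ((cN p (quad (cone f) κ) m : ℂ) * T ^ m)) =
      ∑' m : ℕ, ((p : ℂ) - 1) * ((cN p f (m + 1) : ℂ) * (q * T) ^ (m + 1)) := tsum_congr h1
  rw [(hW1.mul_left (p : ℂ)).tsum_sub (hW.mul_left T), tsum_mul_left, tsum_mul_left,
    tsum_mul_left] at h3
  have h4 := hW.tsum_eq_zero_add
  rw [cN_zero] at h4
  simp only [pow_zero, Complex.ofReal_one, mul_one] at h4 ⊢
  have h5 : ∑' m : ℕ, (cN p (quad (cone f) κ) (m + 1) : ℂ) * T ^ (m + 1) =
      ∑' m : ℕ, (cN p (quad (cone f) κ) m : ℂ) * T ^ m - 1 := by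
    linear_combination -h4
  rw [h5] at h3
  linear_combination h3

lemma norm_pT (s : ℂ) : ‖(p : ℂ) ^ (-s)‖ = (p : ℝ) ^ (-s.re) := by
  have hp : 0 < p := (Fact.out : p.Prime).pos
  rw [← Complex.ofReal_natCast, Complex.norm_cpow_eq_rpow_re_of_pos (by exact_mod_cast hp)]
  simp

lemma norm_pT_lt (s : ℂ) (hs : 0 < s.re) : ‖(p : ℂ) ^ (-s)‖ < 1 := by
  rw [norm_pT]
  exact Real.rpow_lt_one_of_one_lt_of_neg (by exact_mod_cast (Fact.out : p.Prime).one_lt)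
    (by linarith)

/-- **The zeta function of `F = t f(x) + ∑ u_k v_k`.** With `T = p^(-s)`, `T' = p^(-s-m)`:
`T (p - T) (1 - T') Z_F(s) = (p - 1) (T - T' + (1 - T) T' Z_f(s + m))`. -/
theorem zeta_rel (h2 : S_C2) (hz : S_Z) (f : MvPolynomial σ ℤ) (s : ℂ) (hs : 0 < s.re) :
    (p : ℂ) ^ (-s) * ((p : ℂ) - (p : ℂ) ^ (-s)) *
      (1 - (p : ℂ) ^ (-(s + (Fintype.card κ : ℂ)))) * igusaZeta p (quad (cone f) κ) s =
    ((p : ℂ) - 1) * ((p : ℂ) ^ (-s) - (p : ℂ) ^ (-(s + (Fintype.card κ : ℂ))) +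
      (1 - (p : ℂ) ^ (-s)) * (p : ℂ) ^ (-(s + (Fintype.card κ : ℂ))) *
        igusaZeta p f (s + (Fintype.card κ : ℂ))) := by
  have hp0 : (p : ℂ) ≠ 0 := by exact_mod_cast (Fact.out : p.Prime).ne_zero
  have hs' : 0 < (s + (Fintype.card κ : ℂ)).re := by
    have : (0 : ℝ) ≤ (Fintype.card κ : ℝ) := Nat.cast_nonneg _
    rw [Complex.add_re, Complex.natCast_re]
    linarith
  have hT := norm_pT_lt p s hs
  have e1 : (p : ℂ) ^ (-(s + (Fintype.card κ : ℂ))) =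
      ((p : ℂ) ^ Fintype.card κ)⁻¹ * (p : ℂ) ^ (-s) := by
    rw [neg_add, Complex.cpow_add _ _ hp0, Complex.cpow_neg _ (Fintype.card κ : ℂ),
      Complex.cpow_natCast, mul_comm]
  have h1 := hz p _ (quad (cone f) κ) s hs
  have h3 := hz p _ f _ hs'
  have h4 := gen_rel p (κ := κ) h2 f _ hT
  rw [e1] at h3 ⊢
  set T : ℂ := (p : ℂ) ^ (-s)
  set q : ℂ := ((p : ℂ) ^ Fintype.card κ)⁻¹
  set W := ∑' m : ℕ, (cN p (quad (cone f) κ) m : ℂ) * T ^ m
  set V := ∑' m : ℕ, (cN p f m : ℂ) * (q * T) ^ m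
  linear_combination (((p : ℂ) - T) * (1 - q * T)) * h1 - ((p : ℂ) - 1) * (1 - T) * h3 -
    (1 - T) * (1 - q * T) * h4

/-- **The Poincare series of `F = t f(x) + ∑ u_k v_k`.** -/
lemma poincare_rel (h2 : S_C2) (f : MvPolynomial σ ℤ) :
    (PowerSeries.C (p : ℂ) - PowerSeries.X) * poincare p (quad (cone f) κ) =
      1 + PowerSeries.C ((p : ℂ) - 1) *
        PowerSeries.rescale (((p : ℂ) ^ Fintype.card κ)⁻¹) (poincare p f) := by
  have hc : ∀ {V : Type} [Fintype V] (g : MvPolynomial V ℤ) (m : ℕ),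
      PowerSeries.coeff m (poincare p g) = (cN p g m : ℂ) := by
    intro V _ g m
    unfold poincare cN
    rw [PowerSeries.coeff_mk]
    push_cast
    rfl
  ext n
  rw [sub_mul, map_sub, map_add, PowerSeries.coeff_C_mul, PowerSeries.coeff_C_mul,
    PowerSeries.coeff_rescale, hc, hc]
  cases n with
  | zero =>
    rw [PowerSeries.coeff_zero_X_mul, PowerSeries.coeff_zero_one, cN_zero, cN_zero]
    simp
  | succ n =>
    rw [PowerSeries.coeff_succ_X_mul, hc, PowerSeries.coeff_one, if_neg (Nat.succ_ne_zero n)]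
    have h := congrArg (fun x : ℝ => (x : ℂ)) (cN_rec p (κ := κ) h2 f n)
    push_cast at h
    linear_combination h

end

end Pool.Agent.N165.CU
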